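import Pool.Agent.MP_e55146_lc.Stages

/-! Polynomial-time gamblers do not win too fast on the hidden language. -/

namespace Pool.Agent.MP_e55146_lc

open MeasureTheory Filter

open Classical in
/-- The rational written on the output tape. -/
noncomputable def outOf (M : OracleTM) (c : Config M) : ℚ :=
  if h : ∃ q, Holds (c.tape TapeName.output) (ratCode q) then h.choose else 0

theorem outOf_eq (M : OracleTM) (c : Config M) (q : ℚ)
    (h : Holds (c.tape TapeName.output) (ratCode q)) : outOf M c = q := by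
  unfold outOf
  rw [dif_pos ⟨q, h⟩]
  exact ratCode_inj
    ((Exists.choose_spec (⟨q, h⟩ : ∃ q, Holds (c.tape TapeName.output) (ratCode q))).unique h)

/-- The clock of gambler `e` at position `i`. -/
def tm (e i : ℕ) : ℕ := (2 * i + 4) ^ mcC e

/-- The decision tree of gambler `e` after the history `v`. -/
noncomputable def tree (e : ℕ) (v : Str) : DT (ℚ × ℚ) :=
  (mcM e).runTree (fun c0 => (mcM e).runTree
      (fun c1 => DT.leaf (outOf (mcM e) c0, outOf (mcM e) c1)) (tm e v.length)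
      ((mcM e).init (inputCode (v.length + 1) (v ++ [true])))) (tm e v.length)
    ((mcM e).init (inputCode (v.length + 1) (v ++ [false])))

theorem tree_ok (e : ℕ) (v : Str) : DT.Ok (tm e v.length) (2 * tm e v.length) (tree e v) := by
  have := (mcM e).ok_runTree (fun c0 => (mcM e).runTree
      (fun c1 => DT.leaf (outOf (mcM e) c0, outOf (mcM e) c1)) (tm e v.length)
      ((mcM e).init (inputCode (v.length + 1) (v ++ [true])))) (tm e v.length)
      (0 + tm e v.length)
      (fun c0 => (mcM e).ok_runTree _ (tm e v.length) 0 (fun c1 => DT.Ok.leaf _ _) _ _ 0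
        ((mcM e).inv_init _) (by omega)) (tm e v.length)
      ((mcM e).init (inputCode (v.length + 1) (v ++ [false]))) 0 ((mcM e).inv_init _) (by omega)
  rwa [zero_add, ← two_mul] at this

theorem eval_tree (e : ℕ) (v : Str) (A : Set Str) : (tree e v).eval A =
    (outOf (mcM e) ((mcM e).run A (inputCode (v.length + 1) (v ++ [false])) (fun _ => false)
      (tm e v.length)),
     outOf (mcM e) ((mcM e).run A (inputCode (v.length + 1) (v ++ [true])) (fun _ => false)
      (tm e v.length))) := by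
  unfold tree
  rw [OracleTM.eval_runTree, OracleTM.eval_runTree, OracleTM.run_false, OracleTM.run_false]
  rfl

/-- The smoothing constant. -/
noncomputable def KK : ℝ := (σ + 1) / (σ - 1)

theorem one_le_KK : 1 ≤ KK := by
  have := one_lt_σ
  unfold KK
  rw [le_div_iff₀ (by linarith)]
  linarith

/-- The smoothed capital. -/
noncomputable def ev (i : ℕ) (q : ℚ) : ℝ := max 0 (q : ℝ) + KK / 2 ^ i

theorem ev_pos (i : ℕ) (q : ℚ) : 0 < ev i q := by
  have := one_le_KK
  have h2 : 0 < KK / 2 ^ i := by positivity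
  have := le_max_left 0 (q : ℝ)
  unfold ev; linarith

/-- The betting ratios. -/
noncomputable def ratio (i : ℕ) (z : ℚ × ℚ) (c : Bool) : ℝ :=
  (if c then ev (i + 1) z.2 else ev (i + 1) z.1) / (ev (i + 1) z.1 + ev (i + 1) z.2)

theorem ratio_nonneg (i : ℕ) (z : ℚ × ℚ) (c : Bool) : 0 ≤ ratio i z c := by
  have h1 := ev_pos (i + 1) z.1
  have h2 := ev_pos (i + 1) z.2
  unfold ratio
  split_ifs <;> positivity

theorem ratio_sum (i : ℕ) (z : ℚ × ℚ) : ratio i z true + ratio i z false ≤ 1 := by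
  have h1 := ev_pos (i + 1) z.1
  have h2 := ev_pos (i + 1) z.2
  unfold ratio
  simp only [if_true, Bool.false_eq_true, if_false]
  rw [← add_div, add_comm, div_self (by positivity)]

/-- The gain of gambler `e`. -/
noncomputable def gain (e : ℕ) (X : ℕ → Bool) (A : Set Str) (m : ℕ) : ℝ :=
  gainFrom (tree e) ratio X A 0 m

theorem gain_succ (e : ℕ) (X : ℕ → Bool) (A : Set Str) (m : ℕ) :
    gain e X A (m + 1) = gain e X A m * (2 * ratio m ((tree e (firstBits X m)).eval A) (X m)) := by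
  simp [gain, gainFrom, Finset.prod_range_succ]

theorem gain_nonneg (e : ℕ) (X : ℕ → Bool) (A : Set Str) (m : ℕ) : 0 ≤ gain e X A m := by
  unfold gain gainFrom
  exact Finset.prod_nonneg fun _ _ => mul_nonneg zero_le_two (ratio_nonneg _ _ _)

theorem gain_add_le (e : ℕ) (X : ℕ → Bool) (A : Set Str) (m r : ℕ) :
    gain e X A (m + r) ≤ gain e X A m * 2 ^ r := by
  induction r with
  | zero => simp
  | succ r ih =>
    rw [← add_assoc, gain_succ, pow_succ, ← mul_assoc (gain e X A m)]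
    have h1 := ratio_sum (m + r) ((tree e (firstBits X (m + r))).eval A)
    have h2 := ratio_nonneg (m + r) ((tree e (firstBits X (m + r))).eval A) true
    have h3 := ratio_nonneg (m + r) ((tree e (firstBits X (m + r))).eval A) false
    have h4 : ratio (m + r) ((tree e (firstBits X (m + r))).eval A) (X (m + r)) ≤ 1 := by
      cases X (m + r) <;> linarith
    exact mul_le_mul ih (by linarith) (mul_nonneg zero_le_two (ratio_nonneg _ _ _))
      (mul_nonneg (gain_nonneg _ _ _ _) (by positivity))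

/-- A computable gale is dominated by the gain of some gambler. -/
theorem gale_le_gain (A : Set Str) (s : ℝ) (hs : s ≤ 1 / 32) (d : Str → ℝ) (hd : IsGale s d)
    (hc : PComputable A d) : ∃ (e : ℕ) (E0 : ℝ), 0 ≤ E0 ∧ ∀ (X : ℕ → Bool) (m : ℕ),
      d (firstBits X m) ≤ E0 * σ ^ m / 2 ^ m * gain e X A m := by
  obtain ⟨dh, M, p, -, hrun, happ⟩ := hc
  obtain ⟨c, hcp⟩ := poly_le_pow p
  obtain ⟨e, -, rfl, rfl⟩ := exists_stage M c 0
  let E : Str → ℝ := fun w => ev w.length (dh (w.length, w))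
  have hσ := one_lt_σ
  have hK := one_le_KK
  have h2s : (2 : ℝ) ^ s ≤ σ := Real.rpow_le_rpow_of_exponent_le (by norm_num) hs
  have hdE : ∀ w, d w ≤ E w := by
    intro w
    have h1 := (abs_le.1 (happ w.length w)).1
    have h2 := le_max_right 0 (dh (w.length, w) : ℝ)
    have h3 : 1 / (2 : ℝ) ^ w.length ≤ KK / 2 ^ w.length := by gcongr
    simp only [E, ev]
    linarith
  have hstep : ∀ w, E (w ++ [false]) + E (w ++ [true]) ≤ σ * E w := by
    intro w
    have hm : ∀ u : Str, max 0 (dh (u.length, u) : ℝ) ≤ d u + 1 / 2 ^ u.length := by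
      intro u
      have h1 := (abs_le.1 (happ u.length u)).2
      have h2 := hd.1 u
      have h3 : (0 : ℝ) ≤ 1 / 2 ^ u.length := by positivity
      exact max_le (by linarith) (by linarith)
    have h1 := hm (w ++ [false])
    have h2 := hm (w ++ [true])
    have h3 := (abs_le.1 (happ w.length w)).1
    have h4 := le_max_right 0 (dh (w.length, w) : ℝ)
    have h5 : d (w ++ [false]) + d (w ++ [true]) = 2 ^ s * d w := by
      rw [hd.2 w, ← mul_assoc, ← Real.rpow_add (by norm_num)]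
      simp
    have h6 : 2 ^ s * d w ≤ σ * d w := mul_le_mul_of_nonneg_right h2s (hd.1 w)
    simp only [E, ev, List.length_append, List.length_singleton] at h1 h2 ⊢
    set ε : ℝ := 1 / 2 ^ w.length with hε
    have e1 : (1 : ℝ) / 2 ^ (w.length + 1) = ε / 2 := by rw [hε, pow_succ]; field_simp
    have e2 : KK / 2 ^ (w.length + 1) = KK * ε / 2 := by rw [hε, pow_succ]; field_simp
    have e3 : KK / 2 ^ w.length = KK * ε := by rw [hε]; field_simp
    have e4 : KK * (σ - 1) = σ + 1 := by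
      unfold KK
      have : σ - 1 ≠ 0 := by linarith
      field_simp
    rw [e1] at h1 h2
    rw [e2, e3]
    have h7 : σ * d w ≤ σ * (max 0 (dh (w.length, w) : ℝ) + ε) := by
      apply mul_le_mul_of_nonneg_left _ (by linarith)
      linarith
    have e5 : σ * (KK * ε) = (σ + 1 + KK) * ε := by rw [← e4]; ring
    nlinarith
  have heval : ∀ v : Str, (tree e v).eval A =
      (dh (v.length + 1, v ++ [false]), dh (v.length + 1, v ++ [true])) := by
    intro v
    have key : ∀ b : Bool, outOf (mcM e) ((mcM e).run A (inputCode (v.length + 1) (v ++ [b]))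
        (fun _ => false) (tm e v.length)) = dh (v.length + 1, v ++ [b]) := by
      intro b
      have h1 := hrun (v.length + 1) (v ++ [b]) (fun _ => false)
      have h2 : p.eval (v.length + 1 + (v ++ [b]).length) ≤ tm e v.length := by
        refine (hcp _).trans (le_of_eq ?_)
        simp only [tm, List.length_append, List.length_singleton]
        congr 1; ring
      rw [OracleTM.run_of_halted _ _ _ _ h2 h1.1]
      exact outOf_eq _ _ _ h1.2
    rw [eval_tree, key, key]
  refine ⟨e, E [], (ev_pos _ _).le, fun X m => (hdE _).trans ?_⟩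
  induction m with
  | zero => simp [gain, gainFrom]
  | succ m ih =>
    rw [gain_succ, heval, firstBits_succ]
    set v := firstBits X m with hv
    have hl : v.length = m := by simp [hv]
    have h1 : E (v ++ [X m]) = ratio m (dh (v.length + 1, v ++ [false]),
        dh (v.length + 1, v ++ [true])) (X m) * (E (v ++ [false]) + E (v ++ [true])) := by
      have p1 := ev_pos (m + 1) (dh (m + 1, v ++ [false]))
      have p2 := ev_pos (m + 1) (dh (m + 1, v ++ [true]))
      simp only [E, ratio, List.length_append, List.length_singleton, hl]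
      rw [div_mul_cancel₀ _ (by positivity)]
      cases X m <;> simp
    rw [h1]
    set ρ := ratio m (dh (v.length + 1, v ++ [false]), dh (v.length + 1, v ++ [true])) (X m)
    have hρ : 0 ≤ ρ := ratio_nonneg _ _ _
    calc ρ * (E (v ++ [false]) + E (v ++ [true])) ≤ ρ * (σ * E v) := by
          gcongr; exact hstep v
      _ ≤ ρ * (σ * (E [] * σ ^ m / 2 ^ m * gain e X A m)) := by gcongr
      _ = _ := by rw [pow_succ, pow_succ]; field_simp

/-- The constant in the expected gain. -/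
noncomputable def CC (e : ℕ) : ℝ := (gamma_le (mcC e)).choose

theorem CC_pos (e : ℕ) : 0 < CC e := (gamma_le (mcC e)).choose_spec.1

theorem gain_prob (e : ℕ) (M : Str → ℝ) (m : ℕ) (t : ℝ) (ht : 0 < t) :
    (Pr wl).real {ω | t ≤ gain e (bits ω) (orc M ω) m} ≤ CC e * (σ ^ 2) ^ m / t := by
  refine (gain_tail wl_mono (orc_dich M) (tree e) ratio ratio_nonneg ratio_sum
    (fun i => 2 * tm e i) (tm e) (tree_ok e) m t ht).trans ?_
  gcongr
  exact (gamma_le (mcC e)).choose_spec.2 m

/-- The geometric constant. -/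
noncomputable def c0 : ℝ := (1 - (σ ^ 2)⁻¹)⁻¹

theorem inv_σ_sq_lt : (σ ^ 2)⁻¹ < 1 := inv_lt_one_of_one_lt₀ (one_lt_pow₀ one_lt_σ (by norm_num))

theorem c0_pos : 0 < c0 := inv_pos.2 (by linarith [inv_σ_sq_lt])

theorem sum_geom_le (N : ℕ) : ∑ m ∈ Finset.range N, ((σ ^ 2)⁻¹) ^ m ≤ c0 := by
  have h0 : 0 ≤ (σ ^ 2)⁻¹ := by positivity
  have := hasSum_geometric_of_lt_one h0 inv_σ_sq_lt
  exact sum_le_hasSum _ (fun _ _ => by positivity) this

variable (n : ℕ → ℕ)

/-- The gain is too large. -/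
def BadGain (κ : ℕ) : Set (Om wl) :=
  ⋃ e ∈ Finset.range (κ + 1), ⋃ M ∈ MS n κ, ⋃ m ∈ Finset.range (n κ + 1),
    {ω | CC e * c0 * 2 ^ budget n κ * (σ ^ 4) ^ m ≤ gain e (bits ω) (orc (nxt n κ M none) ω) m}

/-- The query `q` guesses the unlikely word of stage `κ`. -/
def Gs (κ : ℕ) (M : Str → ℝ) (q : Str) : Set (Om wl) :=
  {ω | ∃ r w t, q = posR (inputCode r w) t ∧ word κ (4 * n κ) (orc M ω) = w.take (4 * n κ) ∧
    mu n κ M (w.take (4 * n κ)) < 1 / 2 ^ (2 * n κ)}

/-- The word of stage `κ` is guessed too early. -/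
def BadGuess (κ : ℕ) : Set (Om wl) :=
  ⋃ e ∈ Finset.range (κ + 1), ⋃ M ∈ MS n κ,
    {ω | ∃ i < n κ, ∃ q ∈ (tree e (firstBits (bits ω) i)).queries (orc (nxt n κ M none) ω),
      ω ∈ Gs n κ M q}

theorem prob_Gs (κ : ℕ) (M : Str → ℝ) (q : Str) :
    (Pr wl).real (Gs n κ M q) ≤ 1 / 2 ^ (2 * n κ) := by
  rcases (Gs n κ M q).eq_empty_or_nonempty with h | ⟨ω0, r, w, t, hq, -, hμ⟩
  · rw [h, measureReal_empty]; positivity
  · refine le_trans (measureReal_mono ?_) hμ.le
    rintro ω ⟨r', w', t', hq', h1, -⟩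
    obtain ⟨h2, -⟩ := posR_inj (hq.symm.trans hq')
    obtain ⟨-, rfl⟩ := inputCode_inj h2
    exact h1

theorem double_union_le {n : ℕ → ℕ} (hn : Params n) (κ : ℕ) (S : ℕ → (Str → ℝ) → Set (Om wl))
    (h : ∀ e ≤ κ, ∀ M, (Pr wl).real (S e M) ≤ 1 / 2 ^ budget n κ) :
    (Pr wl).real (⋃ e ∈ Finset.range (κ + 1), ⋃ M ∈ MS n κ, S e M) ≤ 1 / 8 * (1 / 2) ^ κ := by
  have hc : (((κ + 1) * (MS n κ).card * 2 ^ (κ + 3) : ℕ) : ℝ) ≤ ((2 ^ budget n κ : ℕ) : ℝ) := by
    exact_mod_cast card_MS hn κ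
  push_cast at hc
  calc _ ≤ _ := measureReal_biUnion_finset_le _ _
    _ ≤ ∑ e ∈ Finset.range (κ + 1), (MS n κ).card * (1 / (2 : ℝ) ^ budget n κ) := by
      apply Finset.sum_le_sum
      intro e he
      refine (measureReal_biUnion_finset_le _ _).trans ?_
      rw [← nsmul_eq_mul, ← Finset.sum_const]
      exact Finset.sum_le_sum fun M _ => h e (Nat.lt_succ_iff.1 (Finset.mem_range.1 he)) M
    _ = (κ + 1) * (MS n κ).card / (2 : ℝ) ^ budget n κ := by
      rw [Finset.sum_const, nsmul_eq_mul, Finset.card_range]; push_cast; ring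
    _ ≤ _ := by
      rw [div_le_iff₀ (by positivity)]
      have e : (1 / 8 * (1 / 2) ^ κ : ℝ) = 1 / 2 ^ (κ + 3) := by
        rw [pow_add, one_div_pow]; field_simp; norm_num
      rw [e, one_div_mul_eq_div, le_div_iff₀ (by positivity)]
      exact hc

theorem prob_BadGain {n : ℕ → ℕ} (hn : Params n) (κ : ℕ) :
    (Pr wl).real (BadGain n κ) ≤ 1 / 8 * (1 / 2) ^ κ := by
  apply double_union_le hn
  intro e _ M
  have h1 := CC_pos e
  have h2 := c0_pos
  have h3 : 0 < σ := by linarith [one_lt_σ]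
  calc _ ≤ _ := measureReal_biUnion_finset_le _ _
    _ ≤ ∑ m ∈ Finset.range (n κ + 1), ((σ ^ 2)⁻¹) ^ m / (c0 * 2 ^ budget n κ) := by
      apply Finset.sum_le_sum
      intro m _
      refine (gain_prob e _ m _ (by positivity)).trans (le_of_eq ?_)
      rw [inv_pow, show σ ^ 4 = σ ^ 2 * σ ^ 2 by ring, mul_pow]
      field_simp
    _ ≤ c0 / (c0 * 2 ^ budget n κ) := by
      rw [← Finset.sum_div]
      gcongr
      exact sum_geom_le _
    _ = _ := by field_simp

theorem prob_BadGuess {n : ℕ → ℕ} (hn : Params n) (κ : ℕ) :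
    (Pr wl).real (BadGuess n κ) ≤ 1 / 8 * (1 / 2) ^ κ := by
  apply double_union_le hn
  intro e he M
  obtain ⟨low, hlow, hG⟩ := hn.goodG κ
  refine (guess_bound wl_mono (orc_dich _) (tree e) (fun i => 2 * tm e i) (tm e) (tree_ok e)
    low (n κ) (2 * (2 * n κ + 4) ^ κ) hlow ?_ (Gs n κ M) _ (by positivity) (prob_Gs n κ M)).trans ?_
  · intro i hi
    apply Nat.mul_le_mul_left
    exact (Nat.pow_le_pow_left (by omega) _).trans
      (Nat.pow_le_pow_right (by omega) ((mcC_le e).trans he))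
  · rw [le_div_iff₀ (by positivity), mul_comm]
    exact hG

theorem exists_good_omega {n : ℕ → ℕ} (hn : Params n) :
    ∃ ω, ∀ κ, ω ∉ BadGain n κ ∧ ω ∉ BadGuess n κ := by
  obtain ⟨ω, h⟩ := exists_avoid (fun κ => BadGain n κ ∪ BadGuess n κ) (fun κ => by
    refine (measureReal_union_le _ _).trans ?_
    have := prob_BadGain hn κ
    have := prob_BadGuess hn κ
    linarith)
  exact ⟨ω, fun κ => ⟨fun h' => h κ (Or.inl h'), fun h' => h κ (Or.inr h')⟩⟩

theorem gain_true {n : ℕ → ℕ} (hn : Params n) (ω : Om wl) (κ e : ℕ) (he : e ≤ κ)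
    (hG : ω ∉ BadGuess n κ) (m : ℕ) (hm : m ≤ n κ) :
    gain e (bits ω) (orc (Minf n ω) ω) m = gain e (bits ω) (orc (nxt n κ (Mst n ω κ) none) ω) m := by
  unfold gain gainFrom
  apply Finset.prod_congr rfl
  intro i hi
  have hi' : i < n κ := (Finset.mem_range.1 hi).trans_le hm
  rw [zero_add, (DT.agree _ (orc (Minf n ω) ω) (orc (nxt n κ (Mst n ω κ) none) ω) _).1]
  intro q hq
  apply orc_congr
  intro r w t hqe
  have h1 : q.length ≤ tm e i := by
    have := (tree_ok e (firstBits (bits ω) i)).len_of_mem _ q hq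
    rwa [length_firstBits] at this
  have h2 : w.length ≤ n (κ + 1) := by
    refine (length_le_of_posR hqe).trans (h1.trans (le_trans ?_ (hn.reach κ)))
    exact (Nat.pow_le_pow_left (by omega) _).trans
      (Nat.pow_le_pow_right (by omega) ((mcC_le e).trans he))
  rw [Minf_eq hn ω w h2]
  simp only [Mst, nxt, nextM]
  congr 3
  unfold adv
  split_ifs with hc
  · simp only [leak]
    have e4 : (word κ (5 * n κ) (orc (Mst n ω κ) ω)).take (4 * n κ) =
        word κ (4 * n κ) (orc (Mst n ω κ) ω) := take_firstBits _ (by omega)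
    rw [e4]
    congr 1
    apply boost_of_not
    intro hpre
    have e5 : word κ (4 * n κ) (orc (Mst n ω κ) ω) = w.take (4 * n κ) := by
      have := List.prefix_iff_eq_take.1 hpre
      rwa [show (word κ (4 * n κ) (orc (Mst n ω κ) ω)).length = 4 * n κ by simp [word]] at this
    apply hG
    simp only [BadGuess, Set.mem_iUnion]
    exact ⟨e, Finset.mem_range.2 (by omega), Mst n ω κ, Mst_mem n ω κ, i, hi', q, hq, r, w, t, hqe,
      e5, e5 ▸ hc⟩
  · rfl

theorem gain_small {n : ℕ → ℕ} (hn : Params n) (ω : Om wl)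
    (hω : ∀ κ, ω ∉ BadGain n κ ∧ ω ∉ BadGuess n κ) (e κ m : ℕ) (he : e ≤ κ)
    (h1 : 16 * n κ ≤ m) (h2 : m ≤ n (κ + 1)) :
    gain e (bits ω) (orc (Minf n ω) ω) m ≤ CC e * c0 * σ ^ (16 * m) := by
  rw [gain_true hn ω (κ + 1) e (by omega) (hω _).2 m h2]
  have h3 := (hω (κ + 1)).1
  simp only [BadGain, Set.mem_iUnion, not_exists, Set.mem_ofPred_eq, not_le] at h3
  refine (h3 e (Finset.mem_range.2 (by omega)) _ (Mst_mem n ω _) m
    (Finset.mem_range.2 (by omega))).le.trans ?_
  have p1 := CC_pos e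
  have p2 := c0_pos
  rw [mul_assoc (CC e * c0)]
  gcongr
  rw [← σ_pow, ← pow_mul, ← pow_mul, ← pow_add]
  apply pow_le_pow_right₀ one_lt_σ.le
  simp only [budget]
  omega

theorem gain_bound {n : ℕ → ℕ} (hn : Params n) (ω : Om wl)
    (hω : ∀ κ, ω ∉ BadGain n κ ∧ ω ∉ BadGuess n κ) (e m : ℕ) (hm : 16 * n e ≤ m) :
    gain e (bits ω) (orc (Minf n ω) ω) m ≤ CC e * c0 * σ ^ (31 * m) := by
  have hex : ∃ κ, m < 16 * n (e + κ + 1) := ⟨m, by have := hn.big (e + m + 1); omega⟩
  obtain ⟨κ, hκ1, hκ2⟩ : ∃ κ, e ≤ κ ∧ 16 * n κ ≤ m ∧ m < 16 * n (κ + 1) := by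
    refine ⟨e + Nat.find hex, by omega, ?_, Nat.find_spec hex⟩
    rcases Nat.eq_zero_or_pos (Nat.find hex) with h0 | h0
    · rw [h0]; exact hm
    · have := Nat.find_min hex (m := Nat.find hex - 1) (by omega)
      rw [show e + (Nat.find hex - 1) + 1 = e + Nat.find hex by omega] at this
      omega
  have p1 := CC_pos e
  have p2 := c0_pos
  have p3 := one_lt_σ
  rcases le_total m (n (κ + 1)) with h | h
  · refine (gain_small hn ω hω e κ m hκ1 hκ2.1 h).trans ?_
    gcongr
    · exact p3.le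
    · omega
  · obtain ⟨r, rfl⟩ := Nat.exists_eq_add_of_le h
    refine (gain_add_le _ _ _ _ _).trans ?_
    have := gain_small hn ω hω e κ (n (κ + 1)) hκ1 (hn.grow κ) le_rfl
    calc _ ≤ CC e * c0 * σ ^ (16 * n (κ + 1)) * 2 ^ r := by gcongr
      _ = CC e * c0 * σ ^ (16 * n (κ + 1) + 32 * r) := by rw [pow_add, pow_mul σ 32, σ_pow]; ring
      _ ≤ _ := by
        gcongr
        · exact p3.le
        · omega

theorem hidden_hard {n : ℕ → ℕ} (hn : Params n) (ω : Om wl)
    (hω : ∀ κ, ω ∉ BadGain n κ ∧ ω ∉ BadGuess n κ) (s : ℝ) (hs : s ≤ 1 / 32) (d : Str → ℝ)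
    (hd : IsGale s d) (hc : PComputable (orc (Minf n ω) ω) d) : ¬ Succeeds d (bits ω) := by
  obtain ⟨e, E0, hE0, h⟩ := gale_le_gain _ s hs d hd hc
  apply not_succeeds_of_bounded d _ (E0 * (CC e * c0)) (16 * n e)
  intro m hm
  have p3 : 0 < σ := by linarith [one_lt_σ]
  refine (h _ m).trans ?_
  calc _ ≤ E0 * σ ^ m / 2 ^ m * (CC e * c0 * σ ^ (31 * m)) := by
        gcongr
        exact gain_bound hn ω hω e m hm
    _ = _ := by
        rw [← σ_pow, ← pow_mul, show 32 * m = m + 31 * m by ring, pow_add]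
        field_simp

theorem main_theorem : ∃ A : Set Str, 1 / 32 ≤ dimP A (NP A) ∧ dimP A (NP A) ≤ 9 / 10 := by
  obtain ⟨n, hn⟩ := exists_params
  obtain ⟨ω, hω⟩ := exists_good_omega hn
  refine ⟨orc (Minf n ω) ω, ?_⟩
  set S := {s : ℝ | 0 ≤ s ∧ ∃ d : Str → ℝ, IsGale s d ∧ PComputable (orc (Minf n ω) ω) d ∧
    ∀ L ∈ NP (orc (Minf n ω) ω), Succeeds d (charSeq L)} with hS
  have h1 : (9 / 10 : ℝ) ∈ S :=
    ⟨by norm_num, galeOf (Minf n ω), galeOf_isGale (Minf_mart hn ω) (Minf_nonneg hn ω),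
      galeOf_pcomputable (Minf_mart hn ω) (Minf_nonneg hn ω) (Minf_nil n ω) ω,
      helper_succeeds hn ω⟩
  have h2 : ∀ s ∈ S, (1 / 32 : ℝ) ≤ s := by
    rintro s ⟨-, d, hd, hc, hL⟩
    by_contra hlt
    have := hL _ (hidden_mem_NP (Minf n ω) ω)
    rw [charSeq_hidden] at this
    exact hidden_hard hn ω hω s (not_le.1 hlt).le d hd hc this
  exact ⟨le_csInf ⟨_, h1⟩ h2, csInf_le ⟨_, h2⟩ h1⟩

end Pool.Agent.MP_e55146_lc
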