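import Pool.Agent.MP_e55146_lc.DT

/-! The product probability space of hidden witnesses, and boxes in it. -/

namespace Pool.Agent.MP_e55146_lc

open MeasureTheory ProbabilityTheory

/-- One block: a bit and a witness position. -/
abbrev Blk (l : ℕ) : Type := Bool × (Fin l → Bool)

/-- The sample space. -/
abbrev Om (ℓ : ℕ → ℕ) : Type := (i : ℕ) → Blk (ℓ i)

/-- The product of uniform measures. -/
noncomputable def Pr (ℓ : ℕ → ℕ) : Measure (Om ℓ) :=
  Measure.infinitePi (fun i => uniformOn (Set.univ : Set (Blk (ℓ i))))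

instance (ℓ : ℕ → ℕ) : IsProbabilityMeasure (Pr ℓ) := by
  unfold Pr; infer_instance

theorem card_Blk (l : ℕ) : Fintype.card (Blk l) = 2 * 2 ^ l := by
  simp [Blk]

/-- A box: finitely many coordinates are restricted to given finite sets. -/
structure Box (ℓ : ℕ → ℕ) : Type where
  s : Finset ℕ
  B : (i : ℕ) → Finset (Blk (ℓ i))

variable {ℓ : ℕ → ℕ}

namespace Box

/-- The set of points of a box. -/
def set (b : Box ℓ) : Set (Om ℓ) := Set.pi (b.s : Set ℕ) (fun i => (b.B i : Set (Blk (ℓ i))))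

/-- The side of a box at a coordinate. -/
def get (b : Box ℓ) (x : ℕ) : Finset (Blk (ℓ x)) := if x ∈ b.s then b.B x else Finset.univ

/-- Cutting a box by a condition on one coordinate. -/
def cut (b : Box ℓ) (x : ℕ) (p : Blk (ℓ x) → Prop) [DecidablePred p] : Box ℓ :=
  ⟨insert x b.s, Function.update b.B x ((b.get x).filter p)⟩

theorem mem_set (b : Box ℓ) (ω : Om ℓ) : ω ∈ b.set ↔ ∀ i ∈ b.s, ω i ∈ b.B i := by
  simp [set, Set.mem_pi]

theorem mem_cut (b : Box ℓ) (x : ℕ) (p : Blk (ℓ x) → Prop) [DecidablePred p] (ω : Om ℓ) :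
    ω ∈ (b.cut x p).set ↔ ω ∈ b.set ∧ p (ω x) := by
  simp only [mem_set, cut, Finset.mem_insert, get]
  constructor
  · intro h
    have hx := h x (Or.inl rfl)
    simp only [Function.update_self, Finset.mem_filter] at hx
    refine ⟨fun i hi => ?_, hx.2⟩
    by_cases hix : i = x
    · subst hix
      simpa [hi] using hx.1
    · have := h i (Or.inr hi)
      rwa [Function.update_of_ne hix] at this
  · rintro ⟨h, hp⟩ i hi
    by_cases hix : i = x
    · subst hix
      simp only [Function.update_self, Finset.mem_filter]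
      refine ⟨?_, hp⟩
      split_ifs with hs
      · exact h i hs
      · exact Finset.mem_univ _
    · rw [Function.update_of_ne hix]
      rcases hi with hi | hi
      · exact absurd hi hix
      · exact h i hi

/-- The product weight of a box. -/
def wt (f : (x : ℕ) → Finset (Blk (ℓ x)) → ℝ) (b : Box ℓ) : ℝ := ∏ x ∈ b.s, f x (b.B x)

/-- The product weight of a box away from one coordinate. -/
def rest (f : (x : ℕ) → Finset (Blk (ℓ x)) → ℝ) (b : Box ℓ) (x : ℕ) : ℝ :=
  ∏ z ∈ b.s.erase x, f z (b.B z)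

theorem wt_eq (f : (x : ℕ) → Finset (Blk (ℓ x)) → ℝ) (hf : ∀ x, f x Finset.univ = 1)
    (b : Box ℓ) (x : ℕ) : b.wt f = b.rest f x * f x (b.get x) := by
  unfold wt rest get
  split_ifs with hx
  · rw [Finset.prod_erase_mul _ _ hx]
  · rw [Finset.erase_eq_of_notMem hx, hf, mul_one]

theorem wt_cut (f : (x : ℕ) → Finset (Blk (ℓ x)) → ℝ)
    (b : Box ℓ) (x : ℕ) (p : Blk (ℓ x) → Prop) [DecidablePred p] :
    (b.cut x p).wt f = b.rest f x * f x ((b.get x).filter p) := by
  unfold wt rest cut
  simp only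
  rw [← Finset.prod_erase_mul _ _ (Finset.mem_insert_self x b.s), Finset.erase_insert_eq_erase]
  congr 1
  · apply Finset.prod_congr rfl
    intro z hz
    rw [Function.update_of_ne (Finset.ne_of_mem_erase hz)]
  · simp

theorem rest_nonneg (f : (x : ℕ) → Finset (Blk (ℓ x)) → ℝ) (hf : ∀ x B, 0 ≤ f x B)
    (b : Box ℓ) (x : ℕ) : 0 ≤ b.rest f x :=
  Finset.prod_nonneg fun _ _ => hf _ _

theorem wt_nonneg (f : (x : ℕ) → Finset (Blk (ℓ x)) → ℝ) (hf : ∀ x B, 0 ≤ f x B)
    (b : Box ℓ) : 0 ≤ b.wt f :=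
  Finset.prod_nonneg fun _ _ => hf _ _

end Box

/-- The uniform probability of a finite set in a block. -/
noncomputable def f0 (ℓ : ℕ → ℕ) (x : ℕ) (B : Finset (Blk (ℓ x))) : ℝ :=
  (B.card : ℝ) / (2 * 2 ^ ℓ x)

theorem f0_univ (x : ℕ) : f0 ℓ x Finset.univ = 1 := by
  unfold f0
  rw [Finset.card_univ, card_Blk]
  push_cast
  field_simp

theorem f0_nonneg (x : ℕ) (B : Finset (Blk (ℓ x))) : 0 ≤ f0 ℓ x B := by
  unfold f0; positivity

theorem Pr_box (b : Box ℓ) : (Pr ℓ).real b.set = b.wt (f0 ℓ) := by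
  unfold Box.set Box.wt Pr Measure.real
  rw [Measure.infinitePi_pi _ (fun i _ => (b.B i).measurableSet), ENNReal.toReal_prod]
  apply Finset.prod_congr rfl
  intro x _
  rw [uniformOn_univ, Measure.count_apply_finset, card_Blk]
  unfold f0
  simp

theorem card_filter_fst (l : ℕ) (B : Finset (Blk l)) (c : Bool) :
    (B.filter (fun z => z.1 = c)).card ≤ 2 ^ l := by
  have : (B.filter (fun z => z.1 = c)).card ≤ (Finset.univ : Finset (Fin l → Bool)).card := by
    apply Finset.card_le_card_of_injOn (fun z => z.2)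
    · intro z _; simp
    · intro z hz z' hz' h
      simp only [Finset.coe_filter, Set.mem_ofPred_eq] at hz hz'
      exact Prod.ext (hz.2.trans hz'.2.symm) h
  simpa using this

theorem card_univ_filter_fst (l : ℕ) (c : Bool) :
    ((Finset.univ : Finset (Blk l)).filter (fun z => z.1 = c)).card = 2 ^ l := by
  have : ((Finset.univ : Finset (Blk l)).filter (fun z => z.1 = c)) =
      (Finset.univ : Finset (Fin l → Bool)).image (fun y => (c, y)) := by
    ext ⟨a, y⟩
    simp [eq_comm]
  rw [this, Finset.card_image_of_injective _ (fun y y' h => (Prod.ext_iff.1 h).2)]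
  simp

end Pool.Agent.MP_e55146_lc
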