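import Pool.Agent.MP_e55146_lc.Machines

/-! Injectivity and lengths of the codes. -/

namespace Pool.Agent.MP_e55146_lc

theorem pairCode_inj {a a' b b' : Str} (h : pairCode a b = pairCode a' b') : a = a' ∧ b = b' := by
  induction a generalizing a' with
  | nil =>
    cases a' with
    | nil => simpa [pairCode] using h
    | cons c a' => simp [pairCode] at h
  | cons c a ih =>
    cases a' with
    | nil => simp [pairCode] at h
    | cons c' a' =>
      simp only [pairCode, List.flatMap_cons, List.cons_append, List.nil_append, List.cons.injEq,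
        true_and] at h
      obtain ⟨h1, h2⟩ := ih (a' := a') h.2
      exact ⟨by rw [h.1, h1], h2⟩

theorem length_pairCode (a b : Str) : (pairCode a b).length = 2 * a.length + 1 + b.length := by
  induction a with
  | nil => simp [pairCode]; ring
  | cons c a ih =>
    simp only [pairCode, List.flatMap_cons, List.cons_append, List.nil_append, List.length_cons]
      at ih ⊢
    omega

theorem inputCode_inj {r r' : ℕ} {w w' : Str} (h : inputCode r w = inputCode r' w') :
    r = r' ∧ w = w' := by
  induction r generalizing r' with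
  | zero =>
    cases r' with
    | zero => simpa [inputCode] using h
    | succ r' => simp [inputCode, List.replicate_succ] at h
  | succ r ih =>
    cases r' with
    | zero => simp [inputCode, List.replicate_succ] at h
    | succ r' =>
      simp only [inputCode, List.replicate_succ, List.cons_append, List.cons.injEq, true_and] at h
      obtain ⟨h1, h2⟩ := ih (r' := r') h
      exact ⟨by rw [h1], h2⟩

theorem length_inputCode (r : ℕ) (w : Str) : (inputCode r w).length = r + 1 + w.length := by
  simp [inputCode]; ring

theorem posR_inj {x x' : Str} {t t' : ℕ} (h : posR x t = posR x' t') : x = x' ∧ t = t' := by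
  have h1 := congrArg List.reverse h
  simp only [posR, List.cons_append, List.reverse_cons, List.reverse_append,
    List.reverse_replicate, List.append_assoc, List.nil_append] at h1
  have h2 : inputCode t (x.reverse ++ [false]) = inputCode t' (x'.reverse ++ [false]) := h1
  obtain ⟨h3, h4⟩ := inputCode_inj h2
  exact ⟨by simpa using h4, h3⟩

theorem posQ_inj {x x' z z' : Str} (h : posQ x z = posQ x' z') : x = x' ∧ z = z' :=
  pairCode_inj (by simpa [posQ] using h)

theorem posQ_ne_posR (x z y : Str) (t : ℕ) : posQ x z ≠ posR y t := by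
  simp [posQ, posR]

theorem length_posR (x : Str) (t : ℕ) : (posR x t).length = x.length + 2 + t := by
  simp [posR]; ring

theorem bits_inj {a b : ℕ} (h : a.bits = b.bits) : a = b := by
  have : Nat.digits 2 a = Nat.digits 2 b := by
    rw [Nat.digits_two_eq_bits, Nat.digits_two_eq_bits, h]
  rw [← Nat.ofDigits_digits 2 a, this, Nat.ofDigits_digits]

theorem ratCode_inj {q q' : ℚ} (h : ratCode q = ratCode q') : q = q' := by
  simp only [ratCode, List.cons.injEq, decide_eq_decide] at h
  obtain ⟨h1, h2⟩ := h
  obtain ⟨h3, h4⟩ := pairCode_inj h2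
  have h5 := bits_inj h3
  have h6 := bits_inj h4
  rw [← Rat.num_neg, ← Rat.num_neg] at h1
  apply Rat.ext _ h6
  omega

theorem length_bits_le {a k : ℕ} (h : a < 2 ^ k) : a.bits.length ≤ k := by
  rw [Nat.size_eq_bits_len]
  exact Nat.size_le.2 h

/-- The code of a dyadic rational is short. -/
theorem length_ratCode_dyadic (a r k : ℕ) (ha : a < 2 ^ k) :
    (ratCode ((a : ℚ) / 2 ^ r)).length ≤ 2 * k + r + 3 := by
  set q : ℚ := (a : ℚ) / 2 ^ r with hq
  have hq' : q = ((a : ℤ) : ℚ) / (((2 ^ r : ℕ) : ℤ) : ℚ) := by rw [hq]; push_cast; rfl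
  have hden : q.den ≤ 2 ^ r := by
    have : (q.den : ℤ) ∣ ((2 ^ r : ℕ) : ℤ) := by
      rw [hq', ← Rat.divInt_eq_div]; exact Rat.den_dvd _ _
    exact Nat.le_of_dvd (by positivity) (Int.natCast_dvd_natCast.1 this)
  have hnum : q.num.natAbs < 2 ^ k := by
    rcases Nat.eq_zero_or_pos a with h0 | h0
    · subst h0; simp [hq]
    · have : q.num ∣ (a : ℤ) := by
        rw [hq', ← Rat.divInt_eq_div]; exact Rat.num_dvd _ (by positivity)
      have h2 : q.num.natAbs ∣ a := Int.natAbs_dvd_natAbs.2 this
      exact (Nat.le_of_dvd h0 h2).trans_lt ha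
  have h1 := length_bits_le hnum
  have h2 : q.den.bits.length ≤ r + 1 :=
    length_bits_le (hden.trans_lt (Nat.pow_lt_pow_right (by norm_num) (Nat.lt_succ_self r)))
  simp only [ratCode, List.length_cons, length_pairCode]
  omega

theorem bits_eq_append (n : ℕ) (hn : n ≠ 0) : ∃ l, n.bits = l ++ [true] := by
  induction n using Nat.binaryRec' with
  | zero => exact absurd rfl hn
  | bit b m hm ih =>
    rw [Nat.bits_append_bit m b hm]
    by_cases h0 : m = 0
    · subst h0
      exact ⟨[], by simp [hm rfl]⟩
    · obtain ⟨l, hl⟩ := ih h0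
      exact ⟨b :: l, by simp [hl]⟩

theorem stdEnum_inj {a b : ℕ} (h : stdEnum a = stdEnum b) : a = b := by
  obtain ⟨l, hl⟩ := bits_eq_append (a + 1) (by omega)
  obtain ⟨l', hl'⟩ := bits_eq_append (b + 1) (by omega)
  simp only [stdEnum, hl, hl', List.reverse_append, List.reverse_cons, List.reverse_nil,
    List.nil_append, List.singleton_append, List.tail_cons, List.reverse_inj] at h
  have : (a + 1).bits = (b + 1).bits := by rw [hl, hl', h]
  have := bits_inj this
  omega

theorem length_stdEnum (n : ℕ) : (stdEnum n).length = Nat.size (n + 1) - 1 := by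
  simp [stdEnum, Nat.size_eq_bits_len]

theorem length_stdEnum_mono : Monotone (fun n => (stdEnum n).length) := by
  intro a b h
  simp only [length_stdEnum]
  have := Nat.size_le_size (show a + 1 ≤ b + 1 by omega)
  omega

theorem length_stdEnum_le {n k : ℕ} (h : n + 1 < 2 ^ (k + 1)) : (stdEnum n).length ≤ k := by
  rw [length_stdEnum]
  have := Nat.size_le.2 h
  omega

theorem le_length_stdEnum {n k : ℕ} (h : 2 ^ k ≤ n + 1) : k ≤ (stdEnum n).length := by
  rw [length_stdEnum]
  have := Nat.lt_size.2 h
  omega

theorem lt_two_pow_length_stdEnum (n : ℕ) : n + 1 < 2 ^ ((stdEnum n).length + 1) := by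
  rw [length_stdEnum]
  have h1 := Nat.lt_size_self (n + 1)
  have h2 : 0 < Nat.size (n + 1) := Nat.size_pos.2 (by omega)
  rwa [Nat.sub_add_cancel h2]

end Pool.Agent.MP_e55146_lc
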