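import Pool.Agent.MP_e55146_lc.Defs

/-! Decision trees with oracle queries. -/

namespace Pool.Agent.MP_e55146_lc

/-- Decision trees querying an oracle. -/
inductive DT (β : Type) : Type
  | leaf (z : β)
  | node (q : Str) (k : Bool → DT β)

namespace DT

variable {β : Type}

open Classical in
/-- The value computed with oracle `A`. -/
noncomputable def eval : DT β → Set Str → β
  | leaf z, _ => z
  | node q k, A => (k (decide (q ∈ A))).eval A

open Classical in
/-- The queries asked with oracle `A`. -/
noncomputable def queries : DT β → Set Str → List Str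
  | leaf _, _ => []
  | node q k, A => q :: (k (decide (q ∈ A))).queries A

/-- Depth at most `T`, all queries of length at most `L`. -/
inductive Ok (L : ℕ) : ℕ → DT β → Prop
  | leaf (T : ℕ) (z : β) : Ok L T (DT.leaf z)
  | node (T : ℕ) (q : Str) (k : Bool → DT β) (hq : q.length ≤ L) (hk : ∀ b, Ok L T (k b)) :
      Ok L (T + 1) (DT.node q k)

theorem agree (τ : DT β) (A A' : Set Str) (h : ∀ q ∈ τ.queries A', (q ∈ A ↔ q ∈ A')) :
    τ.eval A = τ.eval A' ∧ τ.queries A = τ.queries A' := by
  classical
  induction τ with
  | leaf z => simp [eval, queries]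
  | node q k ih =>
    have hq : (q ∈ A ↔ q ∈ A') := h q (by simp [queries])
    have hd : decide (q ∈ A) = decide (q ∈ A') := by simp [hq]
    have := ih (decide (q ∈ A')) (fun q' hq' => h q' (by simp [queries, hq']))
    simp only [eval, queries, hd]
    exact ⟨this.1, by rw [this.2]⟩

theorem Ok.length_queries {L T : ℕ} {τ : DT β} (h : Ok L T τ) (A : Set Str) :
    (τ.queries A).length ≤ T := by
  induction h with
  | leaf T z => simp [queries]
  | node T q k hq hk ih => simpa [queries] using ih _

theorem Ok.len_of_mem {L T : ℕ} {τ : DT β} (h : Ok L T τ) (A : Set Str) :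
    ∀ q ∈ τ.queries A, q.length ≤ L := by
  induction h with
  | leaf T z => simp [queries]
  | node T q k hq hk ih =>
    intro q' hq'
    simp only [queries, List.mem_cons] at hq'
    rcases hq' with rfl | hq'
    · exact hq
    · exact ih _ q' hq'

end DT

theorem firstBits_succ (X : ℕ → Bool) (n : ℕ) :
    firstBits X (n + 1) = firstBits X n ++ [X n] := by
  simp [firstBits, List.range_succ]

@[simp] theorem length_firstBits (X : ℕ → Bool) (n : ℕ) : (firstBits X n).length = n := by
  simp [firstBits]

@[simp] theorem firstBits_zero (X : ℕ → Bool) : firstBits X 0 = [] := by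
  simp [firstBits]

theorem firstBits_congr {X X' : ℕ → Bool} {n : ℕ} (h : ∀ i < n, X i = X' i) :
    firstBits X n = firstBits X' n := by
  unfold firstBits
  apply List.map_congr_left
  intro i hi
  exact h i (List.mem_range.1 hi)

theorem take_firstBits (X : ℕ → Bool) {m n : ℕ} (h : m ≤ n) :
    (firstBits X n).take m = firstBits X m := by
  unfold firstBits
  rw [← List.map_take, List.take_range, Nat.min_eq_left h]

end Pool.Agent.MP_e55146_lc
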