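import Mathlib

/-!
Definitions for the relativized polynomial-time dimension of NP:
oracle Turing machines, NP relative to an oracle, gales, and the dimension.
-/

namespace Pool.Agent.MP_e55146_lc

/-- Binary strings. -/
abbrev Str : Type := List Bool

/-- Control states: six distinguished states and `n` further states. -/
inductive State (n : ℕ) : Type
  | start | query | yes | no | accept | reject
  | work (i : Fin n)

/-- Tape names: input tape, oracle (query) tape, output tape and `k` work tapes. -/
inductive TapeName (k : ℕ) : Type
  | input | oracle | output
  | work (i : Fin k)

/-- A nondeterministic multitape oracle Turing machine over the alphabet 0, 1, blank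
(`none` is the blank).  It has two transition functions `δ false` and `δ true`; each reads the
state and the scanned symbols and gives the new state and, for every tape, the symbol written and
the head move (-1, 0 or 1). -/
structure OracleTM : Type where
  numStates : ℕ
  numTapes : ℕ
  δ : Bool → State numStates → (TapeName numTapes → Option Bool) →
    State numStates × (TapeName numTapes → Option Bool × SignType)

/-- A configuration: state, tape contents (two-way infinite tapes), head positions. -/
structure Config (M : OracleTM) : Type where
  state : State M.numStates
  tape : TapeName M.numTapes → ℤ → Option Bool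
  head : TapeName M.numTapes → ℤ

/-- The tape on which `s` is written from cell 0 on and which is blank elsewhere. -/
def tapeOf (s : Str) : ℤ → Option Bool
  | Int.ofNat i => s[i]?
  | Int.negSucc _ => none

/-- `s` is the string read on the tape from cell 0 up to the first blank. -/
def Holds (t : ℤ → Option Bool) (s : Str) : Prop :=
  ∀ i : ℕ, i ≤ s.length → t (i : ℤ) = s[i]?

/-- The initial configuration on input `x`. -/
def OracleTM.init (M : OracleTM) (x : Str) : Config M where
  state := State.start
  tape := fun t => match t with
    | TapeName.input => tapeOf x
    | TapeName.oracle => tapeOf []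
    | TapeName.output => tapeOf []
    | TapeName.work _ => tapeOf []
  head := fun _ => 0

/-- An ordinary step, using the transition function number `b`. -/
def OracleTM.move (M : OracleTM) (b : Bool) (c : Config M) : Config M where
  state := (M.δ b c.state (fun t => c.tape t (c.head t))).1
  tape := fun t =>
    Function.update (c.tape t) (c.head t) ((M.δ b c.state (fun t => c.tape t (c.head t))).2 t).1
  head := fun t => c.head t + (((M.δ b c.state (fun t => c.tape t (c.head t))).2 t).2 : ℤ)

open Classical in
/-- One step with oracle `A` and nondeterministic choice `b`.  Halted configurations do not change;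
in the query state the machine goes to `yes` if the string on the oracle tape is in `A`
and to `no` otherwise. -/
noncomputable def OracleTM.step (M : OracleTM) (A : Set Str) (b : Bool) (c : Config M) : Config M :=
  match c.state with
  | State.start => M.move b c
  | State.query =>
      { c with state := if ∃ s ∈ A, Holds (c.tape TapeName.oracle) s then State.yes else State.no }
  | State.yes => M.move b c
  | State.no => M.move b c
  | State.accept => c
  | State.reject => c
  | State.work _ => M.move b c

/-- The configuration after `t` steps on input `x` along the choice sequence `ch`. -/
noncomputable def OracleTM.run (M : OracleTM) (A : Set Str) (x : Str) (ch : ℕ → Bool) :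
    ℕ → Config M
  | 0 => M.init x
  | t + 1 => M.step A (ch t) (M.run A x ch t)

/-- The configuration is in a halting state. -/
def Config.Halted {M : OracleTM} (c : Config M) : Prop :=
  c.state = State.accept ∨ c.state = State.reject

/-- The machine is deterministic: its two transition functions coincide. -/
def OracleTM.Deterministic (M : OracleTM) : Prop := M.δ true = M.δ false

/-- `NP A`: languages decided by a nondeterministic oracle machine with oracle `A` all of whose
computation paths halt within polynomial time. -/
def NP (A : Set Str) : Set (Set Str) :=
  {L | ∃ (M : OracleTM) (p : Polynomial ℕ),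
    (∀ x ch, (M.run A x ch (p.eval x.length)).Halted) ∧
    ∀ x, x ∈ L ↔ ∃ ch, (M.run A x ch (p.eval x.length)).state = State.accept}

/-- Self-delimiting pairing of strings. -/
def pairCode (a b : Str) : Str := a.flatMap (fun x => [true, x]) ++ false :: b

/-- Code of a rational: sign bit, then numerator and denominator in binary. -/
def ratCode (q : ℚ) : Str := decide (q < 0) :: pairCode q.num.natAbs.bits q.den.bits

/-- Code of an input `(r, w)`: `r` in unary, a separator, then `w`. -/
def inputCode (r : ℕ) (w : Str) : Str := List.replicate r true ++ false :: w

/-- `d` is computable in polynomial time relative to `A`. -/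
def PComputable (A : Set Str) (d : Str → ℝ) : Prop :=
  ∃ (dhat : ℕ × Str → ℚ) (M : OracleTM) (p : Polynomial ℕ), M.Deterministic ∧
    (∀ r w ch, (M.run A (inputCode r w) ch (p.eval (r + w.length))).Halted ∧
      Holds ((M.run A (inputCode r w) ch (p.eval (r + w.length))).tape TapeName.output)
        (ratCode (dhat (r, w)))) ∧
    ∀ r w, |(dhat (r, w) : ℝ) - d w| ≤ 1 / 2 ^ r

/-- `d` is an `s`-gale. -/
def IsGale (s : ℝ) (d : Str → ℝ) : Prop :=
  (∀ w, 0 ≤ d w) ∧ ∀ w, d w = (2 : ℝ) ^ (-s) * (d (w ++ [false]) + d (w ++ [true]))

/-- The first `n` bits of a sequence. -/
def firstBits (X : ℕ → Bool) (n : ℕ) : Str := (List.range n).map X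

/-- `d` succeeds on `X`: the limsup of `d` along `X` is infinite. -/
def Succeeds (d : Str → ℝ) (X : ℕ → Bool) : Prop :=
  Filter.limsup (fun n => ((d (firstBits X n) : ℝ) : EReal)) Filter.atTop = ⊤

/-- The length-lexicographic enumeration of strings: `n + 1` in binary, most significant bit
first, without its leading 1. -/
def stdEnum (n : ℕ) : Str := (n + 1).bits.reverse.tail

open Classical in
/-- The characteristic sequence of a language. -/
noncomputable def charSeq (L : Set Str) (n : ℕ) : Bool := decide (stdEnum n ∈ L)

/-- The polynomial-time dimension relative to `A` of a class of languages. -/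
noncomputable def dimP (A : Set Str) (C : Set (Set Str)) : ℝ :=
  sInf {s : ℝ | 0 ≤ s ∧ ∃ d : Str → ℝ, IsGale s d ∧ PComputable A d ∧
    ∀ L ∈ C, Succeeds d (charSeq L)}

end Pool.Agent.MP_e55146_lc
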