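import Pool.Agent.MP_e55146_lc.Box

/-! A gambler with few oracle queries cannot win much on the hidden bits. -/

namespace Pool.Agent.MP_e55146_lc

open MeasureTheory ProbabilityTheory

variable {ℓ : ℕ → ℕ}

/-- Each oracle entry is either independent of the sample or tests one witness position. -/
def Dich (O : Om ℓ → Set Str) : Prop :=
  ∀ q : Str, (∀ ω ω', q ∈ O ω ↔ q ∈ O ω') ∨
    ∃ (x : ℕ) (y : Fin (ℓ x) → Bool), ∀ ω, q ∈ O ω ↔ ω x = (true, y)

/-- The hidden bits. -/
def bits (ω : Om ℓ) : ℕ → Bool := fun i => (ω i).1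

open Classical in
/-- The potential weight at betting position `i`. -/
noncomputable def wgt (ℓ : ℕ → ℕ) (i : ℕ) (x : ℕ) (B : Finset (Blk (ℓ x))) : ℝ :=
  if x < i then f0 ℓ x B else if ∀ z ∈ B, z.1 = true then (B.card : ℝ) / 2 ^ ℓ x else 1

theorem wgt_univ (i x : ℕ) : wgt ℓ i x Finset.univ = 1 := by
  unfold wgt
  split_ifs with h1 h2
  · exact f0_univ x
  · have := h2 (false, fun _ => false) (Finset.mem_univ _)
    simp at this
  · rfl

theorem wgt_nonneg (i x : ℕ) (B : Finset (Blk (ℓ x))) : 0 ≤ wgt ℓ i x B := by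
  unfold wgt
  split_ifs
  · exact f0_nonneg x B
  · positivity
  · exact zero_le_one

theorem f0_le_one (x : ℕ) (B : Finset (Blk (ℓ x))) : f0 ℓ x B ≤ 1 := by
  unfold f0
  rw [div_le_one (by positivity)]
  have := Finset.card_le_univ B
  rw [card_Blk] at this
  exact_mod_cast this

theorem f0_le_wgt (i x : ℕ) (B : Finset (Blk (ℓ x))) : f0 ℓ x B ≤ wgt ℓ i x B := by
  unfold wgt
  split_ifs
  · exact le_rfl
  · unfold f0
    apply div_le_div_of_nonneg_left (by positivity) (by positivity)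
    have : (0 : ℝ) < 2 ^ ℓ x := by positivity
    linarith
  · exact f0_le_one x B

theorem card_le_of_all_true (l : ℕ) (B : Finset (Blk l)) (h : ∀ z ∈ B, z.1 = true) :
    B.card ≤ 2 ^ l := by
  have := card_filter_fst l B true
  rwa [Finset.filter_true_of_mem h] at this

theorem wgt_le_one_of_not_lt {i x : ℕ} (h : ¬ x < i) (B : Finset (Blk (ℓ x))) :
    wgt ℓ i x B ≤ 1 := by
  unfold wgt
  rw [if_neg h]
  split_ifs with h2
  · rw [div_le_one (by positivity)]
    exact_mod_cast card_le_of_all_true _ B h2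
  · exact le_rfl

theorem wgt_split (hℓ : Monotone ℓ) (i x : ℕ) (B : Finset (Blk (ℓ x))) (y : Fin (ℓ x) → Bool) :
    wgt ℓ i x (B.filter (fun z => z = (true, y))) + wgt ℓ i x (B.filter (fun z => ¬ z = (true, y)))
      ≤ (1 + 1 / 2 ^ ℓ i) * wgt ℓ i x B := by
  have hc : ((B.filter (fun z => z = (true, y))).card : ℝ) +
      ((B.filter (fun z => ¬ z = (true, y))).card : ℝ) = B.card := by
    exact_mod_cast Finset.card_filter_add_card_filter_not (s := B) (fun z => z = (true, y))
  have hpos : (0 : ℝ) ≤ 1 / 2 ^ ℓ i := by positivity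
  have hw := wgt_nonneg (ℓ := ℓ) i x B
  by_cases hx : x < i
  · have : wgt ℓ i x (B.filter (fun z => z = (true, y))) +
        wgt ℓ i x (B.filter (fun z => ¬ z = (true, y))) = wgt ℓ i x B := by
      simp only [wgt, if_pos hx, f0]
      rw [← add_div, hc]
    rw [this]; nlinarith
  · by_cases hB : ∀ z ∈ B, z.1 = true
    · have h1 : ∀ z ∈ B.filter (fun z => z = (true, y)), z.1 = true :=
        fun z hz => hB z (Finset.mem_filter.1 hz).1
      have h2 : ∀ z ∈ B.filter (fun z => ¬ z = (true, y)), z.1 = true :=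
        fun z hz => hB z (Finset.mem_filter.1 hz).1
      have : wgt ℓ i x (B.filter (fun z => z = (true, y))) +
          wgt ℓ i x (B.filter (fun z => ¬ z = (true, y))) = wgt ℓ i x B := by
        simp only [wgt, if_neg hx, if_pos hB, if_pos h1, if_pos h2]
        rw [← add_div, hc]
      rw [this]; nlinarith
    · have hB1 : wgt ℓ i x B = 1 := by simp only [wgt, if_neg hx, if_neg hB]
      have h1 : ∀ z ∈ B.filter (fun z => z = (true, y)), z.1 = true := by
        intro z hz
        rw [(Finset.mem_filter.1 hz).2]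
      have hcard : (B.filter (fun z => z = (true, y))).card ≤ 1 := by
        apply Finset.card_le_one.2
        intro a ha b hb
        rw [(Finset.mem_filter.1 ha).2, (Finset.mem_filter.1 hb).2]
      have h3 : wgt ℓ i x (B.filter (fun z => z = (true, y))) ≤ 1 / 2 ^ ℓ i := by
        simp only [wgt, if_neg hx, if_pos h1]
        have hle : (2 : ℝ) ^ ℓ i ≤ 2 ^ ℓ x :=
          pow_le_pow_right₀ (by norm_num) (hℓ (not_lt.1 hx))
        have : ((B.filter (fun z => z = (true, y))).card : ℝ) ≤ 1 := by exact_mod_cast hcard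
        exact div_le_div₀ (by norm_num) this (by positivity) hle
      have h4 := wgt_le_one_of_not_lt (ℓ := ℓ) hx (B.filter (fun z => ¬ z = (true, y)))
      rw [hB1]; linarith

theorem wgt_bet (i : ℕ) (B : Finset (Blk (ℓ i))) (p : Bool → ℝ) (hp : ∀ c, 0 ≤ p c)
    (hs : p true + p false ≤ 1) :
    2 * p true * wgt ℓ (i + 1) i (B.filter (fun z => z.1 = true)) +
      2 * p false * wgt ℓ (i + 1) i (B.filter (fun z => z.1 = false)) ≤ wgt ℓ i i B := by
  have hY : (0 : ℝ) < 2 ^ ℓ i := by positivity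
  have e1 : ∀ c, 2 * p c * wgt ℓ (i + 1) i (B.filter (fun z => z.1 = c)) =
      p c * (((B.filter (fun z => z.1 = c)).card : ℝ) / 2 ^ ℓ i) := by
    intro c
    simp only [wgt, if_pos (Nat.lt_succ_self i), f0]
    field_simp
  rw [e1, e1]
  have hle : ∀ c, ((B.filter (fun z => z.1 = c)).card : ℝ) / 2 ^ ℓ i ≤ 1 := by
    intro c
    rw [div_le_one hY]
    exact_mod_cast card_filter_fst _ B c
  have h0 := hp true
  have h1 := hp false
  unfold wgt
  rw [if_neg (lt_irrefl i)]
  split_ifs with hB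
  · have : B.filter (fun z => z.1 = false) = ∅ := by
      apply Finset.filter_false_of_mem
      intro z hz
      simp [hB z hz]
    rw [this, Finset.filter_true_of_mem hB]
    have : (0 : ℝ) ≤ (B.card : ℝ) / 2 ^ ℓ i := by positivity
    simp only [Finset.card_empty, Nat.cast_zero, zero_div, mul_zero, add_zero]
    nlinarith
  · have := hle true
    have := hle false
    nlinarith

theorem Pr_le_wt (i : ℕ) (b : Box ℓ) : (Pr ℓ).real b.set ≤ b.wt (wgt ℓ i) := by
  rw [Pr_box]
  exact Finset.prod_le_prod (fun x _ => f0_nonneg x _) (fun x _ => f0_le_wgt i x _)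

theorem dt_step {β : Type} (hℓ : Monotone ℓ) {O : Om ℓ → Set Str} (hO : Dich O) (i : ℕ)
    (Ev : β → Set (Om ℓ)) (c : ℝ) (hc : 0 ≤ c)
    (hEv : ∀ z (b : Box ℓ), (Pr ℓ).real (b.set ∩ Ev z) ≤ c * b.wt (wgt ℓ i))
    {L T : ℕ} {τ : DT β} (hτ : DT.Ok L T τ) :
    ∀ b : Box ℓ, (Pr ℓ).real (b.set ∩ {ω | ω ∈ Ev (τ.eval (O ω))}) ≤
      c * (1 + 1 / 2 ^ ℓ i) ^ T * b.wt (wgt ℓ i) := by
  classical
  have hg : (1 : ℝ) ≤ 1 + 1 / 2 ^ ℓ i := by
    have : (0 : ℝ) ≤ 1 / 2 ^ ℓ i := by positivity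
    linarith
  induction hτ with
  | leaf T z =>
    intro b
    have h1 := hEv z b
    have h2 : (1 : ℝ) ≤ (1 + 1 / 2 ^ ℓ i) ^ T := one_le_pow₀ hg
    have h3 := Box.wt_nonneg (wgt ℓ i) (wgt_nonneg i) b
    simp only [DT.eval, Set.ofPred_mem_eq]
    calc _ ≤ c * b.wt (wgt ℓ i) := h1
      _ = c * 1 * b.wt (wgt ℓ i) := by ring
      _ ≤ _ := by gcongr
  | node T q k hq hk ih =>
    intro b
    have h3 := Box.wt_nonneg (wgt ℓ i) (wgt_nonneg i) b
    rcases hO q with hconst | ⟨x, y, hxy⟩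
    · let ω0 : Om ℓ := fun _ => (false, fun _ => false)
      have : {ω | ω ∈ Ev ((DT.node q k).eval (O ω))} =
          {ω | ω ∈ Ev ((k (decide (q ∈ O ω0))).eval (O ω))} := by
        ext ω
        simp only [DT.eval, Set.mem_ofPred_eq]
        have : decide (q ∈ O ω) = decide (q ∈ O ω0) := by simp [hconst ω ω0]
        rw [this]
      rw [this]
      calc _ ≤ c * (1 + 1 / 2 ^ ℓ i) ^ T * b.wt (wgt ℓ i) := ih _ b
        _ ≤ _ := by
          gcongr
          · exact Nat.le_succ T
    · have hsub : b.set ∩ {ω | ω ∈ Ev ((DT.node q k).eval (O ω))} ⊆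
          ((b.cut x (fun z => z = (true, y))).set ∩ {ω | ω ∈ Ev ((k true).eval (O ω))}) ∪
          ((b.cut x (fun z => ¬ z = (true, y))).set ∩ {ω | ω ∈ Ev ((k false).eval (O ω))}) := by
        rintro ω ⟨hb, hω⟩
        simp only [DT.eval, Set.mem_ofPred_eq] at hω
        by_cases h : ω x = (true, y)
        · left
          have : decide (q ∈ O ω) = true := by simp [hxy, h]
          rw [this] at hω
          exact ⟨(Box.mem_cut _ _ _ _).2 ⟨hb, h⟩, hω⟩
        · right
          have : decide (q ∈ O ω) = false := by simp [hxy, h]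
          rw [this] at hω
          exact ⟨(Box.mem_cut _ _ _ _).2 ⟨hb, h⟩, hω⟩
      have h1 := ih true (b.cut x (fun z => z = (true, y)))
      have h2 := ih false (b.cut x (fun z => ¬ z = (true, y)))
      have hs := wgt_split hℓ i x (b.get x) y
      have hr := Box.rest_nonneg (wgt ℓ i) (wgt_nonneg i) b x
      rw [Box.wt_cut] at h1 h2
      rw [Box.wt_eq _ (wgt_univ i) b x]
      have hcT : 0 ≤ c * (1 + 1 / 2 ^ ℓ i) ^ T := by positivity
      calc _ ≤ _ := measureReal_mono hsub
        _ ≤ _ := measureReal_union_le _ _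
        _ ≤ c * (1 + 1 / 2 ^ ℓ i) ^ T * b.rest (wgt ℓ i) x *
            (wgt ℓ i x ((b.get x).filter (fun z => z = (true, y))) +
              wgt ℓ i x ((b.get x).filter (fun z => ¬ z = (true, y)))) := by linarith
        _ ≤ c * (1 + 1 / 2 ^ ℓ i) ^ T * b.rest (wgt ℓ i) x *
            ((1 + 1 / 2 ^ ℓ i) * wgt ℓ i x (b.get x)) := by gcongr
        _ = _ := by ring

/-- The factor won on the `r` bets starting at position `i`. -/
noncomputable def gainFrom {β : Type} (τ : Str → DT β) (π : ℕ → β → Bool → ℝ)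
    (X : ℕ → Bool) (A : Set Str) (i r : ℕ) : ℝ :=
  ∏ j ∈ Finset.range r, 2 * π (i + j) ((τ (firstBits X (i + j))).eval A) (X (i + j))

theorem gainFrom_succ {β : Type} (τ : Str → DT β) (π : ℕ → β → Bool → ℝ)
    (X : ℕ → Bool) (A : Set Str) (i r : ℕ) :
    gainFrom τ π X A i (r + 1) =
      2 * π i ((τ (firstBits X i)).eval A) (X i) * gainFrom τ π X A (i + 1) r := by
  unfold gainFrom
  rw [Finset.prod_range_succ', mul_comm]
  congr 1
  apply Finset.prod_congr rfl
  intro j _
  rw [show i + (j + 1) = i + 1 + j by ring]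

theorem rest_wgt_succ (i : ℕ) (b : Box ℓ) : b.rest (wgt ℓ (i + 1)) i = b.rest (wgt ℓ i) i := by
  unfold Box.rest
  apply Finset.prod_congr rfl
  intro z hz
  have hz' : z ≠ i := Finset.ne_of_mem_erase hz
  unfold wgt
  have : (z < i + 1 ↔ z < i) := by omega
  simp only [this]

theorem gain_aux {β : Type} (hℓ : Monotone ℓ) {O : Om ℓ → Set Str} (hO : Dich O)
    (τ : Str → DT β) (π : ℕ → β → Bool → ℝ) (hπ : ∀ i z c, 0 ≤ π i z c)
    (hπ1 : ∀ i z, π i z true + π i z false ≤ 1) (T L : ℕ → ℕ)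
    (hτ : ∀ v, DT.Ok (L v.length) (T v.length) (τ v)) (r : ℕ) :
    ∀ (i : ℕ) (v : Str) (b : Box ℓ) (t : ℝ), 0 < t → v.length = i →
      (Pr ℓ).real (b.set ∩ {ω | firstBits (bits ω) i = v ∧ t ≤ gainFrom τ π (bits ω) (O ω) i r}) ≤
        (∏ j ∈ Finset.range r, (1 + 1 / (2 : ℝ) ^ ℓ (i + j)) ^ T (i + j)) / t *
          b.wt (wgt ℓ i) := by
  induction r with
  | zero =>
    intro i v b t ht hv
    have h3 := Box.wt_nonneg (wgt ℓ i) (wgt_nonneg i) b
    simp only [gainFrom, Finset.range_zero, Finset.prod_empty]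
    by_cases h1 : t ≤ 1
    · calc _ ≤ (Pr ℓ).real b.set := measureReal_mono Set.inter_subset_left
        _ ≤ b.wt (wgt ℓ i) := Pr_le_wt i b
        _ = 1 * b.wt (wgt ℓ i) := by ring
        _ ≤ _ := by
          gcongr
          rw [le_div_iff₀ ht]; linarith
    · simp only [h1, and_false, Set.ofPred_false, Set.inter_empty, measureReal_empty]
      positivity
  | succ r ih =>
    intro i v b t ht hv
    set Γ : ℝ := ∏ j ∈ Finset.range r, (1 + 1 / (2 : ℝ) ^ ℓ (i + 1 + j)) ^ T (i + 1 + j) with hΓ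
    have hΓ0 : 0 ≤ Γ := Finset.prod_nonneg fun j _ => by positivity
    let Ev : β → Set (Om ℓ) := fun z => {ω | firstBits (bits ω) i = v ∧
      t ≤ 2 * π i z (bits ω i) * gainFrom τ π (bits ω) (O ω) (i + 1) r}
    have hEv : ∀ z (b : Box ℓ), (Pr ℓ).real (b.set ∩ Ev z) ≤ Γ / t * b.wt (wgt ℓ i) := by
      intro z b
      have hbit : ∀ c : Bool, (Pr ℓ).real ((b.cut i (fun z => z.1 = c)).set ∩
          {ω | firstBits (bits ω) (i + 1) = v ++ [c] ∧
            t ≤ 2 * π i z c * gainFrom τ π (bits ω) (O ω) (i + 1) r}) ≤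
          Γ / t * (b.rest (wgt ℓ i) i *
            (2 * π i z c * wgt ℓ (i + 1) i ((b.get i).filter (fun z => z.1 = c)))) := by
        intro c
        have hr := Box.rest_nonneg (wgt ℓ i) (wgt_nonneg i) b i
        have hw := wgt_nonneg (ℓ := ℓ) (i + 1) i ((b.get i).filter (fun z => z.1 = c))
        rcases (hπ i z c).eq_or_lt with h0 | h0
        · have : ¬ t ≤ 0 := not_le.2 ht
          simp [← h0, this]
        · have := ih (i + 1) (v ++ [c]) (b.cut i (fun z => z.1 = c)) (t / (2 * π i z c))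
            (by positivity) (by simp [hv])
          rw [Box.wt_cut, rest_wgt_succ] at this
          have e : {ω : Om ℓ | firstBits (bits ω) (i + 1) = v ++ [c] ∧
              t ≤ 2 * π i z c * gainFrom τ π (bits ω) (O ω) (i + 1) r} =
              {ω | firstBits (bits ω) (i + 1) = v ++ [c] ∧
              t / (2 * π i z c) ≤ gainFrom τ π (bits ω) (O ω) (i + 1) r} := by
            ext ω
            simp only [Set.mem_ofPred_eq]
            rw [div_le_iff₀ (by positivity), mul_comm (gainFrom τ π (bits ω) (O ω) (i + 1) r)]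
          rw [e]
          refine this.trans (le_of_eq ?_)
          rw [← hΓ]
          field_simp
      have hsub : b.set ∩ Ev z ⊆
          ((b.cut i (fun z => z.1 = true)).set ∩
            {ω | firstBits (bits ω) (i + 1) = v ++ [true] ∧
              t ≤ 2 * π i z true * gainFrom τ π (bits ω) (O ω) (i + 1) r}) ∪
          ((b.cut i (fun z => z.1 = false)).set ∩
            {ω | firstBits (bits ω) (i + 1) = v ++ [false] ∧
              t ≤ 2 * π i z false * gainFrom τ π (bits ω) (O ω) (i + 1) r}) := by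
        rintro ω ⟨hb, hv', hg⟩
        cases hc : bits ω i
        · right
          refine ⟨(Box.mem_cut _ _ _ _).2 ⟨hb, hc⟩, ?_, ?_⟩
          · rw [firstBits_succ, hv', hc]
          · rwa [hc] at hg
        · left
          refine ⟨(Box.mem_cut _ _ _ _).2 ⟨hb, hc⟩, ?_, ?_⟩
          · rw [firstBits_succ, hv', hc]
          · rwa [hc] at hg
      have hbet := wgt_bet (ℓ := ℓ) i (b.get i) (π i z) (hπ i z) (hπ1 i z)
      have hr := Box.rest_nonneg (wgt ℓ i) (wgt_nonneg i) b i
      have h1 := hbit true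
      have h2 := hbit false
      have hΓt : 0 ≤ Γ / t := by positivity
      rw [Box.wt_eq _ (wgt_univ i) b i]
      calc _ ≤ _ := measureReal_mono hsub
        _ ≤ _ := measureReal_union_le _ _
        _ ≤ Γ / t * (b.rest (wgt ℓ i) i *
            (2 * π i z true * wgt ℓ (i + 1) i ((b.get i).filter (fun z => z.1 = true)) +
              2 * π i z false * wgt ℓ (i + 1) i ((b.get i).filter (fun z => z.1 = false)))) := by
          linarith
        _ ≤ _ := by gcongr
    have key := dt_step hℓ hO i Ev (Γ / t) (by positivity) hEv (hτ v) b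
    have e : {ω : Om ℓ | firstBits (bits ω) i = v ∧ t ≤ gainFrom τ π (bits ω) (O ω) i (r + 1)} =
        {ω | ω ∈ Ev ((τ v).eval (O ω))} := by
      ext ω
      simp only [Ev, Set.mem_ofPred_eq, gainFrom_succ]
      constructor
      · rintro ⟨h1, h2⟩
        exact ⟨h1, by rwa [h1] at h2⟩
      · rintro ⟨h1, h2⟩
        exact ⟨h1, by rwa [h1]⟩
    rw [e]
    refine key.trans (le_of_eq ?_)
    rw [Finset.prod_range_succ', hv]
    have : ∏ j ∈ Finset.range r, (1 + 1 / (2 : ℝ) ^ ℓ (i + (j + 1))) ^ T (i + (j + 1)) = Γ := by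
      rw [hΓ]
      apply Finset.prod_congr rfl
      intro j _
      rw [show i + (j + 1) = i + 1 + j by ring]
    rw [this]
    simp only [add_zero]
    ring

/-- Tail bound for the gain. -/
theorem gain_tail {β : Type} (hℓ : Monotone ℓ) {O : Om ℓ → Set Str} (hO : Dich O)
    (τ : Str → DT β) (π : ℕ → β → Bool → ℝ) (hπ : ∀ i z c, 0 ≤ π i z c)
    (hπ1 : ∀ i z, π i z true + π i z false ≤ 1) (T L : ℕ → ℕ)
    (hτ : ∀ v, DT.Ok (L v.length) (T v.length) (τ v)) (m : ℕ) (t : ℝ) (ht : 0 < t) :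
    (Pr ℓ).real {ω | t ≤ gainFrom τ π (bits ω) (O ω) 0 m} ≤
      (∏ j ∈ Finset.range m, (1 + 1 / (2 : ℝ) ^ ℓ j) ^ T j) / t := by
  have := gain_aux hℓ hO τ π hπ hπ1 T L hτ m 0 [] ⟨∅, fun _ => ∅⟩ t ht rfl
  simpa [Box.set, Box.wt] using this

end Pool.Agent.MP_e55146_lc
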