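import Pool.Agent.MP_e55146_lc.Gain

/-! A gambler with few oracle queries cannot guess an unlikely string early. -/

namespace Pool.Agent.MP_e55146_lc

open MeasureTheory ProbabilityTheory

variable {ℓ : ℕ → ℕ}

/-- Remove all witnesses in blocks from `low` on. -/
def blind (low : ℕ) (ω : Om ℓ) : Om ℓ := fun x => if x < low then ω x else (false, fun _ => false)

/-- The points with the same low blocks and the same first `n` bits. -/
def atom (low n : ℕ) (ν : Om ℓ) : Box ℓ :=
  ⟨Finset.range n, fun x => Finset.univ.filter (fun z => z.1 = (ν x).1 ∧ (x < low → z = ν x))⟩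

/-- The number of views in one block. -/
def nview (ℓ : ℕ → ℕ) (low x : ℕ) : ℕ := if x < low then 2 * 2 ^ ℓ x else 2

theorem nview_pos (low x : ℕ) : 0 < nview ℓ low x := by
  unfold nview; split_ifs <;> positivity

theorem f0_atom_le (low n : ℕ) (ν : Om ℓ) (x : ℕ) :
    f0 ℓ x ((atom low n ν).B x) ≤ 1 / (nview ℓ low x : ℝ) := by
  unfold f0 atom nview
  simp only
  split_ifs with hx
  · have : (Finset.univ.filter (fun z : Blk (ℓ x) => z.1 = (ν x).1 ∧ (True → z = ν x))).card
        ≤ 1 := by
      apply Finset.card_le_one.2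
      intro a ha b hb
      rw [(Finset.mem_filter.1 ha).2.2 trivial, (Finset.mem_filter.1 hb).2.2 trivial]
    have h2 : ((Finset.univ.filter
        (fun z : Blk (ℓ x) => z.1 = (ν x).1 ∧ (True → z = ν x))).card : ℝ) ≤ 1 := by
      exact_mod_cast this
    simp only [hx]
    push_cast
    exact div_le_div_of_nonneg_right h2 (by positivity)
  · simp only [hx, false_imp_iff, and_true]
    rw [card_univ_filter_fst]
    push_cast
    apply le_of_eq
    field_simp

theorem wt_atom_le (low n : ℕ) (ν : Om ℓ) :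
    (atom low n ν).wt (f0 ℓ) ≤ 1 / ((∏ x ∈ Finset.range n, nview ℓ low x : ℕ) : ℝ) := by
  unfold Box.wt
  push_cast
  rw [one_div, ← Finset.prod_inv_distrib]
  apply Finset.prod_le_prod (fun x _ => f0_nonneg x _)
  intro x _
  rw [← one_div]
  exact f0_atom_le low n ν x

theorem half_le_f0_get_atom (low n : ℕ) (ν : Om ℓ) (x : ℕ) (hx : ¬ x < low) :
    1 / 2 ≤ f0 ℓ x ((atom low n ν).get x) := by
  unfold Box.get
  split_ifs with h
  · unfold atom f0
    simp only [hx, false_imp_iff, and_true]
    rw [card_univ_filter_fst]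
    push_cast
    apply le_of_eq
    field_simp
  · rw [f0_univ]; norm_num

theorem atom_hit (hℓ : Monotone ℓ) {O : Om ℓ → Set Str} (hO : Dich O) (low n : ℕ) (ν : Om ℓ)
    (q : Str) :
    (Pr ℓ).real ((atom low n ν).set ∩ {ω | ¬ (q ∈ O ω ↔ q ∈ O (blind low ω))}) ≤
      (atom low n ν).wt (f0 ℓ) / 2 ^ ℓ low := by
  classical
  have hw := Box.wt_nonneg (f0 ℓ) f0_nonneg (atom low n ν)
  rcases hO q with hc | ⟨x, y, hxy⟩
  · have : {ω | ¬ (q ∈ O ω ↔ q ∈ O (blind low ω))} = ∅ := by
      ext ω; simp [hc ω (blind low ω)]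
    rw [this]
    simp only [Set.inter_empty, measureReal_empty]
    positivity
  · by_cases hx : x < low
    · have : {ω | ¬ (q ∈ O ω ↔ q ∈ O (blind low ω))} = ∅ := by
        ext ω; simp [hxy, blind, hx]
      rw [this]
      simp only [Set.inter_empty, measureReal_empty]
      positivity
    · have hsub : (atom low n ν).set ∩ {ω | ¬ (q ∈ O ω ↔ q ∈ O (blind low ω))} ⊆
          ((atom low n ν).cut x (fun z => z = (true, y))).set := by
        rintro ω ⟨h1, h2⟩
        refine (Box.mem_cut _ _ _ _).2 ⟨h1, ?_⟩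
        simpa [hxy, blind, hx] using h2
      have hr := Box.rest_nonneg (f0 ℓ) f0_nonneg (atom low n ν) x
      have hcard : (((atom low n ν).get x).filter (fun z => z = (true, y))).card ≤ 1 := by
        apply Finset.card_le_one.2
        intro a ha b hb
        rw [(Finset.mem_filter.1 ha).2, (Finset.mem_filter.1 hb).2]
      have hle : (2 : ℝ) ^ ℓ low ≤ 2 ^ ℓ x :=
        pow_le_pow_right₀ (by norm_num) (hℓ (not_lt.1 hx))
      have h3 : f0 ℓ x (((atom low n ν).get x).filter (fun z => z = (true, y))) ≤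
          (1 / 2) / 2 ^ ℓ low := by
        unfold f0
        have : ((((atom low n ν).get x).filter (fun z => z = (true, y))).card : ℝ) ≤ 1 := by
          exact_mod_cast hcard
        rw [div_div]
        exact div_le_div₀ (by norm_num) this (by positivity) (by linarith)
      have h4 := half_le_f0_get_atom low n ν x hx
      calc _ ≤ _ := measureReal_mono hsub
        _ = _ := Pr_box _
        _ = _ := Box.wt_cut _ _ _ _
        _ ≤ (atom low n ν).rest (f0 ℓ) x * ((1 / 2) / 2 ^ ℓ low) := by gcongr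
        _ ≤ (atom low n ν).rest (f0 ℓ) x * (f0 ℓ x ((atom low n ν).get x) / 2 ^ ℓ low) := by
          gcongr
        _ = _ := by rw [Box.wt_eq _ f0_univ _ x]; ring

theorem exists_reps (low n : ℕ) (hlow : low ≤ n) :
    ∃ R : Finset (Om ℓ), R.card ≤ ∏ x ∈ Finset.range n, nview ℓ low x ∧
      ∀ ω : Om ℓ, ∃ ν ∈ R, ω ∈ (atom low n ν).set ∧ (∀ x < n, bits ν x = bits ω x) ∧
        blind low ν = blind low ω := by
  classical
  let C : (x : Fin n) → Finset (Blk (ℓ x)) := fun x =>
    if (x : ℕ) < low then Finset.univ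
    else (Finset.univ : Finset Bool).image (fun c => (c, fun _ => false))
  let ext : ((x : Fin n) → Blk (ℓ x)) → Om ℓ := fun ν x =>
    if h : x < n then ν ⟨x, h⟩ else (false, fun _ => false)
  refine ⟨(Fintype.piFinset C).image ext, ?_, ?_⟩
  · refine Finset.card_image_le.trans ?_
    rw [Fintype.card_piFinset, ← Fin.prod_univ_eq_prod_range (fun x => nview ℓ low x) n]
    apply Finset.prod_le_prod' 
    intro x _
    simp only [C, nview]
    split_ifs
    · rw [Finset.card_univ, card_Blk]
    · exact Finset.card_image_le.trans (by simp)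
  · intro ω
    refine ⟨ext (fun x => if (x : ℕ) < low then ω x else ((ω x).1, fun _ => false)), ?_, ?_, ?_, ?_⟩
    · apply Finset.mem_image_of_mem
      rw [Fintype.mem_piFinset]
      intro x
      simp only [C]
      split_ifs
      · exact Finset.mem_univ _
      · exact Finset.mem_image_of_mem _ (Finset.mem_univ _)
    · rw [Box.mem_set]
      intro x hx
      have hx' : x < n := Finset.mem_range.1 hx
      simp only [atom, ext, dif_pos hx', Finset.mem_filter, Finset.mem_univ, true_and]
      by_cases h : x < low <;> simp [h]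
    · intro x hx
      simp only [bits, ext, dif_pos hx]
      split_ifs <;> rfl
    · funext x
      simp only [blind, ext]
      split_ifs with h1 h2
      · rfl
      · omega
      · rfl

theorem prod_nview_le (hℓ : Monotone ℓ) (low n : ℕ) (hlow : low ≤ n) :
    ∏ x ∈ Finset.range n, nview ℓ low x ≤ (2 * 2 ^ ℓ low) ^ low * 2 ^ n := by
  rw [← Finset.prod_range_mul_prod_Ico _ hlow]
  apply Nat.mul_le_mul
  · have := Finset.prod_le_pow_card (Finset.range low) (fun x => nview ℓ low x) (2 * 2 ^ ℓ low)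
      (fun x hx => by
        have hx' := Finset.mem_range.1 hx
        simp only [nview, if_pos hx']
        exact Nat.mul_le_mul_left _ (Nat.pow_le_pow_right (by norm_num) (hℓ hx'.le)))
    simpa using this
  · have := Finset.prod_le_pow_card (Finset.Ico low n) (fun x => nview ℓ low x) 2
      (fun x hx => by
        have hx' := (Finset.mem_Ico.1 hx).1
        simp only [nview, if_neg (not_lt.2 hx'), le_refl])
    refine this.trans (Nat.pow_le_pow_right (by norm_num) ?_)
    simp

theorem guess_bound {β : Type} (hℓ : Monotone ℓ) {O : Om ℓ → Set Str} (hO : Dich O)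
    (τ : Str → DT β) (T L : ℕ → ℕ) (hτ : ∀ v, DT.Ok (L v.length) (T v.length) (τ v))
    (low n Tm : ℕ) (hlow : low ≤ n) (hT : ∀ i < n, T i ≤ Tm)
    (Gs : Str → Set (Om ℓ)) (δ : ℝ) (hδ : 0 ≤ δ) (hGs : ∀ q, (Pr ℓ).real (Gs q) ≤ δ) :
    (Pr ℓ).real {ω | ∃ i < n, ∃ q ∈ (τ (firstBits (bits ω) i)).queries (O ω), ω ∈ Gs q} ≤
      n * Tm * (1 / 2 ^ ℓ low + (2 * 2 ^ ℓ low) ^ low * 2 ^ n * δ) := by
  classical
  obtain ⟨R, hR, hrep⟩ := exists_reps (ℓ := ℓ) low n hlow
  set Z : ℕ := ∏ x ∈ Finset.range n, nview ℓ low x with hZ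
  have hZpos : 0 < Z := Finset.prod_pos fun x _ => nview_pos low x
  have hZle : Z ≤ (2 * 2 ^ ℓ low) ^ low * 2 ^ n := prod_nview_le hℓ low n hlow
  let Q : Om ℓ → ℕ → Finset Str := fun ν i =>
    ((τ (firstBits (bits ν) i)).queries (O (blind low ν))).toFinset
  have hQ : ∀ ν, ∀ i < n, (Q ν i).card ≤ Tm := by
    intro ν i hi
    refine (List.toFinset_card_le _).trans ?_
    have := (hτ (firstBits (bits ν) i)).length_queries (O (blind low ν))
    rw [length_firstBits] at this
    exact this.trans (hT i hi)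
  have hsub : {ω | ∃ i < n, ∃ q ∈ (τ (firstBits (bits ω) i)).queries (O ω), ω ∈ Gs q} ⊆
      ⋃ ν ∈ R, ⋃ i ∈ Finset.range n, ⋃ q ∈ Q ν i,
        (((atom low n ν).set ∩ {ω | ¬ (q ∈ O ω ↔ q ∈ O (blind low ω))}) ∪ Gs q) := by
    rintro ω ⟨i, hi, q, hq, hG⟩
    obtain ⟨ν, hν, hat, hb, hbl⟩ := hrep ω
    have hfb : firstBits (bits ν) i = firstBits (bits ω) i :=
      firstBits_congr fun j hj => hb j (hj.trans hi)
    simp only [Set.mem_iUnion]
    by_cases hall : ∀ q' ∈ (τ (firstBits (bits ω) i)).queries (O (blind low ω)),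
        (q' ∈ O ω ↔ q' ∈ O (blind low ω))
    · have := (DT.agree _ _ _ hall).2
      refine ⟨ν, hν, i, Finset.mem_range.2 hi, q, ?_, Or.inr hG⟩
      simp only [Q, List.mem_toFinset]
      rw [hfb, hbl, ← this]
      exact hq
    · push Not at hall
      obtain ⟨q', hq', hne⟩ := hall
      refine ⟨ν, hν, i, Finset.mem_range.2 hi, q', ?_, Or.inl ⟨hat, ?_⟩⟩
      · simp only [Q, List.mem_toFinset]
        rw [hfb, hbl]
        exact hq'
      · simp only [Set.mem_ofPred_eq]
        tauto
  have hone : ∀ ν q, (Pr ℓ).real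
      (((atom low n ν).set ∩ {ω | ¬ (q ∈ O ω ↔ q ∈ O (blind low ω))}) ∪ Gs q) ≤
      1 / (Z : ℝ) / 2 ^ ℓ low + δ := by
    intro ν q
    refine (measureReal_union_le _ _).trans (add_le_add ?_ (hGs q))
    refine (atom_hit hℓ hO low n ν q).trans ?_
    gcongr
    exact wt_atom_le low n ν
  have hpos : 0 ≤ 1 / (Z : ℝ) / 2 ^ ℓ low + δ := by positivity
  have hZR : (0 : ℝ) < Z := by exact_mod_cast hZpos
  calc _ ≤ _ := measureReal_mono hsub (measure_ne_top _ _)
    _ ≤ _ := measureReal_biUnion_finset_le _ _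
    _ ≤ ∑ ν ∈ R, n * Tm * (1 / (Z : ℝ) / 2 ^ ℓ low + δ) := by
      apply Finset.sum_le_sum
      intro ν _
      refine (measureReal_biUnion_finset_le _ _).trans ?_
      calc _ ≤ ∑ i ∈ Finset.range n, Tm * (1 / (Z : ℝ) / 2 ^ ℓ low + δ) := by
            apply Finset.sum_le_sum
            intro i hi
            refine (measureReal_biUnion_finset_le _ _).trans ?_
            calc _ ≤ ∑ q ∈ Q ν i, (1 / (Z : ℝ) / 2 ^ ℓ low + δ) :=
                  Finset.sum_le_sum fun q _ => hone ν q
              _ = (Q ν i).card * (1 / (Z : ℝ) / 2 ^ ℓ low + δ) := by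
                rw [Finset.sum_const, nsmul_eq_mul]
              _ ≤ _ := by
                gcongr
                exact_mod_cast hQ ν i (Finset.mem_range.1 hi)
        _ = _ := by rw [Finset.sum_const, nsmul_eq_mul, Finset.card_range, mul_assoc]
    _ = R.card * (n * Tm * (1 / (Z : ℝ) / 2 ^ ℓ low + δ)) := by
      rw [Finset.sum_const, nsmul_eq_mul]
    _ ≤ Z * (n * Tm * (1 / (Z : ℝ) / 2 ^ ℓ low + δ)) := by
      gcongr
    _ = n * Tm * (1 / 2 ^ ℓ low + Z * δ) := by field_simp
    _ ≤ _ := by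
      gcongr
      exact_mod_cast hZle

/-- Events determined by finitely many oracle entries are measurable. -/
theorem measurableSet_local {γ : Type} {O : Om ℓ → Set Str} (hO : Dich O) (F : Set Str → γ) (L : ℕ)
    (hF : ∀ A A' : Set Str, (∀ q : Str, q.length ≤ L → (q ∈ A ↔ q ∈ A')) → F A = F A') (h : γ) :
    MeasurableSet {ω | F (O ω) = h} := by
  classical
  have : Finite {q : Str // q.length ≤ L} := List.finite_length_le Bool L
  let g : Om ℓ → ({q : Str // q.length ≤ L} → Bool) := fun ω q => decide (q.1 ∈ O ω)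
  have hg : Measurable g := by
    apply measurable_pi_lambda
    intro q
    rcases hO q.1 with hc | ⟨x, y, hxy⟩
    · let ω0 : Om ℓ := fun _ => (false, fun _ => false)
      have : (fun ω => g ω q) = fun _ => g ω0 q := by
        funext ω; simp [g, hc ω ω0]
      rw [this]; exact measurable_const
    · have : (fun ω => g ω q) = (fun z : Blk (ℓ x) => decide (z = (true, y))) ∘ (fun ω => ω x) := by
        funext ω; simp [g, hxy]
      rw [this]
      exact (measurable_of_finite _).comp (measurable_pi_apply x)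
  have : {ω | F (O ω) = h} =
      g ⁻¹' {φ | F {q | ∃ hq : q.length ≤ L, φ ⟨q, hq⟩ = true} = h} := by
    ext ω
    simp only [Set.mem_ofPred_eq, Set.mem_preimage]
    rw [hF (O ω) {q | ∃ hq : q.length ≤ L, g ω ⟨q, hq⟩ = true}]
    intro q hq
    simp [g, hq]
  rw [this]
  exact hg (Set.toFinite _).measurableSet

theorem sum_prob_le_one {γ : Type} {O : Om ℓ → Set Str} (hO : Dich O) (F : Set Str → γ) (L : ℕ)
    (hF : ∀ A A' : Set Str, (∀ q : Str, q.length ≤ L → (q ∈ A ↔ q ∈ A')) → F A = F A')
    (S : Finset γ) : ∑ h ∈ S, (Pr ℓ).real {ω | F (O ω) = h} ≤ 1 := by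
  have := sum_measureReal_le_measureReal_univ (μ := Pr ℓ) (s := S)
    (t := fun h => {ω | F (O ω) = h}) (fun h _ => measurableSet_local hO F L hF h)
    (fun h _ h' _ hne => by
      simp only [Function.onFun, Set.disjoint_left, Set.mem_ofPred_eq]
      intro ω h1 h2
      exact hne (h1.symm.trans h2))
  simpa using this

/-- Union bound: a point outside countably many small sets. -/
theorem exists_avoid (Bad : ℕ → Set (Om ℓ)) (h : ∀ k, (Pr ℓ).real (Bad k) ≤ 1 / 4 * (1 / 2) ^ k) :
    ∃ ω, ∀ k, ω ∉ Bad k := by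
  by_contra hcon
  push Not at hcon
  have hU : (⋃ k, Bad k) = Set.univ := by
    ext ω; simpa using hcon ω
  have h1 : (Pr ℓ) (⋃ k, Bad k) ≤ ∑' k, ENNReal.ofReal (1 / 4 * (1 / 2) ^ k) := by
    refine (measure_iUnion_le _).trans (ENNReal.tsum_le_tsum fun k => ?_)
    rw [← ofReal_measureReal]
    exact ENNReal.ofReal_le_ofReal (h k)
  have hs : HasSum (fun k : ℕ => (1 / 4 * (1 / 2) ^ k : ℝ)) (1 / 4 * 2) :=
    hasSum_geometric_two.mul_left _
  rw [← ENNReal.ofReal_tsum_of_nonneg (fun k => by positivity) hs.summable, hs.tsum_eq, hU,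
    measure_univ] at h1
  have : ENNReal.ofReal (1 / 4 * 2) < 1 := by
    rw [ENNReal.ofReal_lt_one]; norm_num
  exact absurd h1 (not_le.2 this)

end Pool.Agent.MP_e55146_lc
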