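import Pool.Agent.MP_e55146_lc.TM

/-! Two explicit oracle machines. -/

namespace Pool.Agent.MP_e55146_lc

/-- Transition tables with two extra states and one work tape. -/
abbrev Tr : Type := Bool → State 2 → (TapeName 1 → Option Bool) →
  State 2 × (TapeName 1 → Option Bool × SignType)

/-- The machine with a given transition table. -/
abbrev mach (δ : Tr) : OracleTM := ⟨2, 1, δ⟩

/-- A tape with one marked cell. -/
def cell (ph : Option Bool) : ℤ → Option Bool := fun j => if j = 0 then ph else none

/-- Configurations of append-only machines. -/
def cfg (δ : Tr) (st : State 2) (x : Str) (ih : ℕ) (q o : Str) (ph : Option Bool) :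
    Config (mach δ) where
  state := st
  tape := fun t => match t with
    | TapeName.input => tapeOf x
    | TapeName.oracle => tapeOf q
    | TapeName.output => tapeOf o
    | TapeName.work _ => cell ph
  head := fun t => match t with
    | TapeName.input => (ih : ℤ)
    | TapeName.oracle => (q.length : ℤ)
    | TapeName.output => (o.length : ℤ)
    | TapeName.work _ => 0

/-- Append a symbol, or do nothing. -/
def app (w : Option Bool) (a : Option Bool) : Option Bool × SignType :=
  match w with
  | some b => (some b, 1)
  | none => (a, 0)

/-- An action of an append-only machine. -/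
def act (a : TapeName 1 → Option Bool) (st : State 2) (mi : Bool) (wq wo ph : Option Bool) :
    State 2 × (TapeName 1 → Option Bool × SignType) :=
  (st, fun t => match t with
    | TapeName.input => (a TapeName.input, if mi then 1 else 0)
    | TapeName.oracle => app wq (a TapeName.oracle)
    | TapeName.output => app wo (a TapeName.output)
    | TapeName.work _ => (ph, 0))

/-- The scanned symbols. -/
def scan (x : Str) (ih : ℕ) (ph : Option Bool) : TapeName 1 → Option Bool := fun t =>
  match t with
  | TapeName.input => x[ih]?
  | TapeName.oracle => none
  | TapeName.output => none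
  | TapeName.work _ => ph

theorem scan_cfg (δ : Tr) (st : State 2) (x : Str) (ih : ℕ) (q o : Str) (ph : Option Bool) :
    (fun t => (cfg δ st x ih q o ph).tape t ((cfg δ st x ih q o ph).head t)) = scan x ih ph := by
  funext t
  cases t <;> simp [cfg, scan, cell]

theorem update_app (s : Str) (w : Option Bool) :
    Function.update (tapeOf s) (s.length : ℤ) (app w none).1 = tapeOf (s ++ w.toList) := by
  cases w with
  | none =>
    simp only [app, Option.toList_none, List.append_nil]
    apply Function.update_eq_self_iff.2
    simp
  | some b => simpa [app] using tapeOf_update s b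

theorem head_app (s : Str) (w : Option Bool) :
    (s.length : ℤ) + ((app w none).2 : ℤ) = ((s ++ w.toList).length : ℤ) := by
  cases w <;> simp [app]

theorem move_cfg (δ : Tr) (b : Bool) (st : State 2) (x : Str) (ih : ℕ) (q o : Str)
    (ph : Option Bool) (st' : State 2) (mi : Bool) (wq wo ph' : Option Bool)
    (h : δ b st (scan x ih ph) = act (scan x ih ph) st' mi wq wo ph') :
    (mach δ).move b (cfg δ st x ih q o ph) =
      cfg δ st' x (ih + if mi then 1 else 0) (q ++ wq.toList) (o ++ wo.toList) ph' := by
  unfold OracleTM.move
  simp only [scan_cfg]
  have hst : (cfg δ st x ih q o ph).state = st := rfl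
  simp only [hst, h]
  unfold cfg
  congr 1
  · funext t
    cases t with
    | input =>
      simp only [act, scan]
      apply Function.update_eq_self_iff.2
      simp
    | oracle => simpa only [act, scan] using update_app q wq
    | output => simpa only [act, scan] using update_app o wo
    | work i =>
      simp only [act]
      funext j
      by_cases hj : j = 0
      · subst hj; simp [cell]
      · simp [cell, hj]
  · funext t
    cases t with
    | input => cases mi <;> simp [act]
    | oracle => simpa only [act, scan] using head_app q wq
    | output => simpa only [act, scan] using head_app o wo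
    | work i => simp [act]

theorem step_cfg (δ : Tr) (A : Set Str) (b : Bool) (st : State 2) (x : Str) (ih : ℕ) (q o : Str)
    (ph : Option Bool) (st' : State 2) (mi : Bool) (wq wo ph' : Option Bool)
    (h1 : st ≠ State.accept) (h2 : st ≠ State.reject) (h3 : st ≠ State.query)
    (h : δ b st (scan x ih ph) = act (scan x ih ph) st' mi wq wo ph') :
    (mach δ).step A b (cfg δ st x ih q o ph) =
      cfg δ st' x (ih + if mi then 1 else 0) (q ++ wq.toList) (o ++ wo.toList) ph' := by
  rw [OracleTM.step_move _ _ _ _ h1 h2 h3, move_cfg _ _ _ _ _ _ _ _ _ _ _ _ _ h]

theorem step_yes (δ : Tr) (A : Set Str) (b : Bool) (x : Str) (ih : ℕ) (q o : Str)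
    (ph : Option Bool) (h : q ∈ A) :
    (mach δ).step A b (cfg δ State.query x ih q o ph) = cfg δ State.yes x ih q o ph := by
  rw [OracleTM.step_query _ _ _ _ rfl]
  have : ∃ s ∈ A, Holds ((cfg δ State.query x ih q o ph).tape TapeName.oracle) s :=
    (exists_holds_tapeOf A q).2 h
  rw [if_pos this]
  rfl

theorem step_no (δ : Tr) (A : Set Str) (b : Bool) (x : Str) (ih : ℕ) (q o : Str)
    (ph : Option Bool) (h : q ∉ A) :
    (mach δ).step A b (cfg δ State.query x ih q o ph) = cfg δ State.no x ih q o ph := by
  rw [OracleTM.step_query _ _ _ _ rfl]
  have : ¬ ∃ s ∈ A, Holds ((cfg δ State.query x ih q o ph).tape TapeName.oracle) s :=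
    fun h' => h ((exists_holds_tapeOf A q).1 h')
  rw [if_neg this]
  rfl

theorem init_cfg (δ : Tr) (x : Str) : (mach δ).init x = cfg δ State.start x 0 [] [] none := by
  unfold OracleTM.init cfg
  congr 1
  · funext t
    cases t with
    | input => rfl
    | oracle => rfl
    | output => rfl
    | work i =>
      funext j
      cases j <;> simp [tapeOf, cell]
  · funext t
    cases t <;> simp

/-- Table positions. -/
def posR (inp : Str) (t : ℕ) : Str := false :: inp ++ false :: List.replicate t true

/-- Witness positions. -/
def posQ (x z : Str) : Str := true :: pairCode x z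

/-- The deterministic machine that reads its output from the oracle. -/
def δD : Tr := fun _ st a =>
  match st with
  | State.start => act a (State.work 0) false (some false) none none
  | State.work _ => match a TapeName.input with
    | some b => act a (State.work 0) true (some b) none none
    | none => act a State.query false (some false) none none
  | State.yes => match a (TapeName.work 0) with
    | none => act a State.query false (some true) none (some true)
    | some _ => act a State.query false (some true) (some true) none
  | State.no => match a (TapeName.work 0) with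
    | none => act a State.accept false none none none
    | some _ => act a State.query false (some true) (some false) none
  | _ => act a State.accept false none none none

theorem posR_succ (inp : Str) (t : ℕ) : posR inp t ++ [true] = posR inp (t + 1) := by
  simp [posR, List.replicate_succ']

theorem runD_copy (A : Set Str) (x : Str) (ch : ℕ → Bool) (j : ℕ) (hj : j ≤ x.length) :
    (mach δD).run A x ch (j + 1) = cfg δD (State.work 0) x j (false :: x.take j) [] none := by
  induction j with
  | zero =>
    rw [OracleTM.run, OracleTM.run, init_cfg,
      step_cfg δD A _ _ _ _ _ _ _ (State.work 0) false (some false) none none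
        (by simp) (by simp) (by simp) rfl]
    simp
  | succ j ih =>
    have hj' : j < x.length := hj
    rw [OracleTM.run, ih hj'.le,
      step_cfg δD A _ _ _ _ _ _ _ (State.work 0) true (some x[j]) none none
        (by simp) (by simp) (by simp) (by simp [δD, scan, List.getElem?_eq_getElem hj'])]
    simp

theorem runD_loop (A : Set Str) (x o : Str) (ch : ℕ → Bool)
    (h0 : ∀ i ≤ o.length, (posR x (2 * i) ∈ A ↔ i < o.length))
    (h1 : ∀ i (hi : i < o.length), (posR x (2 * i + 1) ∈ A ↔ o[i] = true))
    (i : ℕ) (hi : i ≤ o.length) :
    (mach δD).run A x ch (x.length + 2 + 4 * i) =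
      cfg δD State.query x x.length (posR x (2 * i)) (o.take i) none := by
  induction i with
  | zero =>
    rw [show x.length + 2 + 4 * 0 = x.length + 1 + 1 by ring, OracleTM.run,
      runD_copy A x ch _ le_rfl,
      step_cfg δD A _ _ _ _ _ _ _ State.query false (some false) none none
        (by simp) (by simp) (by simp) (by simp [δD, scan])]
    simp [posR]
  | succ i ih =>
    have hi' : i < o.length := hi
    rw [show x.length + 2 + 4 * (i + 1) = x.length + 2 + 4 * i + 1 + 1 + 1 + 1 by ring,
      OracleTM.run, OracleTM.run, OracleTM.run, OracleTM.run, ih hi'.le,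
      step_yes _ _ _ _ _ _ _ _ ((h0 i hi'.le).2 hi'),
      step_cfg δD A _ _ _ _ _ _ _ State.query false (some true) none (some true)
        (by simp) (by simp) (by simp) (by simp [δD, scan])]
    simp only [Option.toList_some, posR_succ, Option.toList_none, List.append_nil]
    cases hb : o[i] with
    | true =>
      rw [step_yes _ _ _ _ _ _ _ _ ((h1 i hi').2 hb),
        step_cfg δD A _ _ _ _ _ _ _ State.query false (some true) (some true) none
          (by simp) (by simp) (by simp) (by simp [δD, scan])]
      simp only [Option.toList_some, posR_succ]
      rw [← List.take_append_getElem hi', hb]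
      simp [mul_add]
    | false =>
      rw [step_no _ _ _ _ _ _ _ _ (fun h => by simp [(h1 i hi').1 h] at hb),
        step_cfg δD A _ _ _ _ _ _ _ State.query false (some true) (some false) none
          (by simp) (by simp) (by simp) (by simp [δD, scan])]
      simp only [Option.toList_some, posR_succ]
      rw [← List.take_append_getElem hi', hb]
      simp [mul_add]

theorem runD_final (A : Set Str) (x o : Str) (ch : ℕ → Bool)
    (h0 : ∀ i ≤ o.length, (posR x (2 * i) ∈ A ↔ i < o.length))
    (h1 : ∀ i (hi : i < o.length), (posR x (2 * i + 1) ∈ A ↔ o[i] = true))
    (T : ℕ) (hT : x.length + 4 + 4 * o.length ≤ T) :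
    ((mach δD).run A x ch T).Halted ∧ Holds (((mach δD).run A x ch T).tape TapeName.output) o := by
  have key : (mach δD).run A x ch (x.length + 4 + 4 * o.length) =
      cfg δD State.accept x x.length (posR x (2 * o.length)) o none := by
    rw [show x.length + 4 + 4 * o.length = x.length + 2 + 4 * o.length + 1 + 1 by ring,
      OracleTM.run, OracleTM.run, runD_loop A x o ch h0 h1 _ le_rfl,
      step_no _ _ _ _ _ _ _ _ (fun h => by simpa using (h0 _ le_rfl).1 h),
      step_cfg δD A _ _ _ _ _ _ _ State.accept false none none none
        (by simp) (by simp) (by simp) (by simp [δD, scan])]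
    simp
  have hh : ((mach δD).run A x ch (x.length + 4 + 4 * o.length)).Halted := by
    rw [key]; exact Or.inl rfl
  rw [OracleTM.run_of_halted _ A x ch hT hh, key]
  exact ⟨Or.inl rfl, holds_tapeOf o⟩

/-- The nondeterministic machine that guesses a witness. -/
def δN : Tr := fun b st a =>
  match st with
  | State.start => act a (State.work 0) false (some true) none none
  | State.work i =>
    if i = 0 then
      match a TapeName.input with
      | some _ => act a (State.work 1) false (some true) none none
      | none => act a State.query false (some false) none none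
    else act a (State.work 0) true (a TapeName.input) none none
  | State.yes => match a (TapeName.work 0) with
    | none => act a State.query false (some b) none none
    | some _ => act a State.accept false none none none
  | State.no => match a (TapeName.work 0) with
    | none => act a State.query false (some false) none (some true)
    | some _ => act a State.reject false none none none
  | _ => act a State.accept false none none none

theorem posQ_append (x z : Str) (b : Bool) : posQ x z ++ [b] = posQ x (z ++ [b]) := by
  simp [posQ, pairCode]

theorem runN_copy (A : Set Str) (x : Str) (ch : ℕ → Bool) (j : ℕ) (hj : j ≤ x.length) :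
    (mach δN).run A x ch (2 * j + 1) =
      cfg δN (State.work 0) x j (true :: (x.take j).flatMap (fun c => [true, c])) [] none := by
  induction j with
  | zero =>
    rw [OracleTM.run, OracleTM.run, init_cfg,
      step_cfg δN A _ _ _ _ _ _ _ (State.work 0) false (some true) none none
        (by simp) (by simp) (by simp) rfl]
    simp
  | succ j ih =>
    have hj' : j < x.length := hj
    rw [show 2 * (j + 1) + 1 = 2 * j + 1 + 1 + 1 by ring, OracleTM.run, OracleTM.run, ih hj'.le,
      step_cfg δN A _ _ _ _ _ _ _ (State.work 1) false (some true) none none
        (by simp) (by simp) (by simp) (by simp [δN, scan, List.getElem?_eq_getElem hj']),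
      step_cfg δN A _ _ _ _ _ _ _ (State.work 0) true (some x[j]) none none
        (by simp) (by simp) (by simp) (by simp [δN, scan, List.getElem?_eq_getElem hj'])]
    rw [← List.take_append_getElem hj', List.flatMap_append]
    simp

theorem runN_loop (A : Set Str) (x : Str) (l : ℕ) (ch : ℕ → Bool)
    (h0 : ∀ z : Str, z.length < l → posQ x z ∈ A) (i : ℕ) (hi : i ≤ l) :
    (mach δN).run A x ch (2 * x.length + 2 + 2 * i) =
      cfg δN State.query x x.length
        (posQ x (firstBits (fun j => ch (2 * x.length + 2 + 2 * j + 1)) i)) [] none := by
  induction i with
  | zero =>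
    rw [show 2 * x.length + 2 + 2 * 0 = 2 * x.length + 1 + 1 by ring, OracleTM.run,
      runN_copy A x ch _ le_rfl,
      step_cfg δN A _ _ _ _ _ _ _ State.query false (some false) none none
        (by simp) (by simp) (by simp) (by simp [δN, scan])]
    simp [posQ, pairCode]
  | succ i ih =>
    have hi' : i < l := hi
    rw [show 2 * x.length + 2 + 2 * (i + 1) = 2 * x.length + 2 + 2 * i + 1 + 1 by ring,
      OracleTM.run, OracleTM.run, ih hi'.le,
      step_yes _ _ _ _ _ _ _ _ (h0 _ (by simpa using hi')),
      step_cfg δN A _ _ _ _ _ _ _ State.query false (some (ch (2 * x.length + 2 + 2 * i + 1)))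
        none none (by simp) (by simp) (by simp) (by simp [δN, scan])]
    simp [posQ_append, firstBits_succ]

theorem runN_final (A : Set Str) (x : Str) (l : ℕ) (ch : ℕ → Bool)
    (h0 : ∀ z : Str, z.length < l → posQ x z ∈ A) (h1 : ∀ z : Str, z.length = l → posQ x z ∉ A)
    (T : ℕ) (hT : 2 * x.length + 6 + 2 * l ≤ T) :
    ((mach δN).run A x ch T).Halted ∧ (((mach δN).run A x ch T).state = State.accept ↔
      posQ x (firstBits (fun j => ch (2 * x.length + 2 + 2 * j + 1)) l ++ [false]) ∈ A) := by
  set z := firstBits (fun j => ch (2 * x.length + 2 + 2 * j + 1)) l with hz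
  have key : (mach δN).run A x ch (2 * x.length + 2 + 2 * l + 1 + 1) =
      cfg δN State.query x x.length (posQ x (z ++ [false])) [] (some true) := by
    rw [OracleTM.run, OracleTM.run, runN_loop A x l ch h0 _ le_rfl,
      step_no _ _ _ _ _ _ _ _ (h1 _ (by simp)),
      step_cfg δN A _ _ _ _ _ _ _ State.query false (some false) none (some true)
        (by simp) (by simp) (by simp) (by simp [δN, scan])]
    simp [posQ_append, hz]
  by_cases hA : posQ x (z ++ [false]) ∈ A
  · have key2 : (mach δN).run A x ch (2 * x.length + 6 + 2 * l) =
        cfg δN State.accept x x.length (posQ x (z ++ [false])) [] none := by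
      rw [show 2 * x.length + 6 + 2 * l = 2 * x.length + 2 + 2 * l + 1 + 1 + 1 + 1 by ring,
        OracleTM.run, OracleTM.run, key, step_yes _ _ _ _ _ _ _ _ hA,
        step_cfg δN A _ _ _ _ _ _ _ State.accept false none none none
          (by simp) (by simp) (by simp) (by simp [δN, scan])]
      simp
    have hh : ((mach δN).run A x ch (2 * x.length + 6 + 2 * l)).Halted := by
      rw [key2]; exact Or.inl rfl
    rw [OracleTM.run_of_halted _ A x ch hT hh, key2]
    exact ⟨Or.inl rfl, by simp [hA, cfg]⟩
  · have key2 : (mach δN).run A x ch (2 * x.length + 6 + 2 * l) =
        cfg δN State.reject x x.length (posQ x (z ++ [false])) [] none := by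
      rw [show 2 * x.length + 6 + 2 * l = 2 * x.length + 2 + 2 * l + 1 + 1 + 1 + 1 by ring,
        OracleTM.run, OracleTM.run, key, step_no _ _ _ _ _ _ _ _ hA,
        step_cfg δN A _ _ _ _ _ _ _ State.reject false none none none
          (by simp) (by simp) (by simp) (by simp [δN, scan])]
      simp
    have hh : ((mach δN).run A x ch (2 * x.length + 6 + 2 * l)).Halted := by
      rw [key2]; exact Or.inr rfl
    rw [OracleTM.run_of_halted _ A x ch hT hh, key2]
    exact ⟨Or.inr rfl, by simp [hA, cfg]⟩

end Pool.Agent.MP_e55146_lc
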