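import Pool.Agent.MP_e55146_lc.DT

/-! Martingales that bet on a given string. -/

namespace Pool.Agent.MP_e55146_lc

/-- The martingale identity. -/
def IsMart (M : Str → ℝ) : Prop := ∀ w, M w = (M (w ++ [false]) + M (w ++ [true])) / 2

theorem IsMart.le_pow {M : Str → ℝ} (h : IsMart M) (h0 : ∀ w, 0 ≤ M w) (h1 : M [] = 1) (w : Str) :
    M w ≤ 2 ^ w.length := by
  induction w using List.reverseRecOn with
  | nil => simp [h1]
  | append_singleton w b ih =>
    have := h w
    have h2 := h0 (w ++ [false])
    have h3 := h0 (w ++ [true])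
    simp only [List.length_append, List.length_singleton, pow_succ]
    cases b <;> linarith

open Classical in
/-- The martingale that bets everything on `z`. -/
noncomputable def allIn (z w : Str) : ℝ :=
  if w <+: z then 2 ^ w.length else if z <+: w then 2 ^ z.length else 0

theorem allIn_nonneg (z w : Str) : 0 ≤ allIn z w := by
  unfold allIn; split_ifs <;> positivity

theorem allIn_mart (z : Str) : IsMart (allIn z) := by
  intro w
  by_cases h1 : w <+: z
  · obtain ⟨t, rfl⟩ := h1
    cases t with
    | nil =>
      have e : ∀ b : Bool, ¬ (w ++ [b] <+: w) := fun b h => by simpa using h.length_le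
      simp [allIn, e]
    | cons c t =>
      have e1 : w ++ [c] <+: w ++ c :: t := ⟨t, by simp⟩
      have e2 : ¬ (w ++ [!c] <+: w ++ c :: t) := by
        rw [List.prefix_append_right_inj]; simp
      have e3 : ¬ (w ++ c :: t <+: w ++ [!c]) := by
        rw [List.prefix_append_right_inj]; simp
      have e0 : w <+: w ++ c :: t := List.prefix_append _ _
      cases c
      · simp only [Bool.not_false] at e2 e3
        simp only [allIn, if_pos e0, if_pos e1, if_neg e2, if_neg e3]
        simp [pow_succ]
      · simp only [Bool.not_true] at e2 e3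
        simp only [allIn, if_pos e0, if_pos e1, if_neg e2, if_neg e3]
        simp [pow_succ]
  · have e : ∀ b : Bool, ¬ (w ++ [b] <+: z) := fun b h => h1 ((List.prefix_append _ _).trans h)
    by_cases h2 : z <+: w
    · have e' : ∀ b : Bool, z <+: w ++ [b] := fun b => h2.trans (List.prefix_append _ _)
      simp [allIn, h1, h2, e, e']
    · have e' : ∀ b : Bool, ¬ z <+: w ++ [b] := by
        intro b h
        rcases List.prefix_concat_iff.1 h with h | h
        · exact h1 (h ▸ List.prefix_append _ _)
        · exact h2 h
      simp [allIn, h1, h2, e, e']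

open Classical in
/-- The martingale that bets everything on `z` once `p` has been seen. -/
noncomputable def boost (p z w : Str) : ℝ := if p <+: w then allIn z w / 2 ^ p.length else 1

theorem boost_nonneg (p z w : Str) : 0 ≤ boost p z w := by
  unfold boost
  split_ifs
  · exact div_nonneg (allIn_nonneg _ _) (by positivity)
  · exact zero_le_one

theorem boost_of_not {p z w : Str} (h : ¬ p <+: w) : boost p z w = 1 := by
  simp [boost, h]

theorem boost_self {p z : Str} (h : p <+: z) : boost p z p = 1 := by
  simp [boost, allIn, h]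

theorem boost_short {p z w : Str} (h : p <+: z) (hw : w.length ≤ p.length) : boost p z w = 1 := by
  by_cases h1 : p <+: w
  · rw [← h1.eq_of_length_le hw]; exact boost_self h
  · exact boost_of_not h1

theorem boost_win {p z w : Str} (h : p <+: z) (hw : z <+: w) :
    boost p z w = 2 ^ z.length / 2 ^ p.length := by
  simp only [boost, if_pos (h.trans hw), allIn, if_pos hw]
  split_ifs with h1
  · rw [h1.eq_of_length_le hw.length_le]
  · rfl

theorem boost_mart {p z : Str} (h : p <+: z) : IsMart (boost p z) := by
  intro w
  by_cases h1 : p <+: w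
  · have e : ∀ b : Bool, p <+: w ++ [b] := fun b => h1.trans (List.prefix_append _ _)
    simp only [boost, if_pos h1, if_pos (e _)]
    rw [allIn_mart z w]
    ring
  · have e : ∀ b : Bool, boost p z (w ++ [b]) = 1 := by
      intro b
      by_cases h2 : p <+: w ++ [b]
      · rcases List.prefix_concat_iff.1 h2 with h3 | h3
        · rw [← h3]; exact boost_self h
        · exact absurd h3 h1
      · exact boost_of_not h2
    rw [e, e, boost_of_not h1]
    norm_num

/-- All strings of a given length. -/
def words (L : ℕ) : Finset Str := (Finset.univ : Finset (Fin L → Bool)).image List.ofFn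

theorem mem_words {L : ℕ} {w : Str} : w ∈ words L ↔ w.length = L := by
  simp only [words, Finset.mem_image, Finset.mem_univ, true_and]
  constructor
  · rintro ⟨f, rfl⟩; simp
  · rintro rfl; exact ⟨w.get, List.ofFn_get w⟩

theorem card_words (L : ℕ) : (words L).card ≤ 2 ^ L :=
  Finset.card_image_le.trans (by simp)

/-- The martingale betting according to a distribution on strings of length `4 n`. -/
noncomputable def prior (μ : Str → ℝ) (n : ℕ) (w : Str) : ℝ :=
  1 + ∑ h ∈ words (4 * n), μ h * (boost (h.take n) h w - 1)

theorem prior_mart (μ : Str → ℝ) (n : ℕ) : IsMart (prior μ n) := by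
  intro w
  unfold prior
  have : ∑ h ∈ words (4 * n), μ h * (boost (h.take n) h w - 1) =
      (∑ h ∈ words (4 * n), μ h * (boost (h.take n) h (w ++ [false]) - 1) +
        ∑ h ∈ words (4 * n), μ h * (boost (h.take n) h (w ++ [true]) - 1)) / 2 := by
    rw [← Finset.sum_add_distrib, Finset.sum_div]
    apply Finset.sum_congr rfl
    intro h _
    rw [boost_mart (List.take_prefix n h) w]
    ring
  rw [this]; ring

theorem prior_short (μ : Str → ℝ) (n : ℕ) (w : Str) (hw : w.length ≤ n) : prior μ n w = 1 := by
  unfold prior
  rw [Finset.sum_eq_zero, add_zero]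
  intro h hh
  rw [boost_short (List.take_prefix n h) (by rw [List.length_take, mem_words.1 hh]; omega)]
  ring

theorem prior_eq (μ : Str → ℝ) (n : ℕ) (w : Str) : prior μ n w =
    (1 - ∑ h ∈ words (4 * n), μ h) + ∑ h ∈ words (4 * n), μ h * boost (h.take n) h w := by
  unfold prior
  simp only [mul_sub, mul_one, Finset.sum_sub_distrib]
  ring

theorem prior_nonneg {μ : Str → ℝ} {n : ℕ} (h0 : ∀ h, 0 ≤ μ h) (h1 : ∑ h ∈ words (4 * n), μ h ≤ 1)
    (w : Str) : 0 ≤ prior μ n w := by
  rw [prior_eq]
  exact add_nonneg (by linarith)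
    (Finset.sum_nonneg fun h _ => mul_nonneg (h0 h) (boost_nonneg _ _ _))

theorem prior_win {μ : Str → ℝ} {n : ℕ} (h0 : ∀ h, 0 ≤ μ h) (h1 : ∑ h ∈ words (4 * n), μ h ≤ 1)
    (h w : Str) (hh : h.length = 4 * n) (hw : h <+: w) (hμ : 1 / 2 ^ (2 * n) ≤ μ h) :
    2 ^ n ≤ prior μ n w := by
  rw [prior_eq]
  have h2 : μ h * boost (h.take n) h w ≤ ∑ h ∈ words (4 * n), μ h * boost (h.take n) h w :=
    Finset.single_le_sum (f := fun h => μ h * boost (h.take n) h w)
      (fun h _ => mul_nonneg (h0 h) (boost_nonneg _ _ _)) (mem_words.2 hh)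
  rw [boost_win (List.take_prefix n h) hw, List.length_take, hh,
    Nat.min_eq_left (by omega : n ≤ 4 * n)] at h2
  have h3 : (2 : ℝ) ^ n = 1 / 2 ^ (2 * n) * (2 ^ (4 * n) / 2 ^ n) := by
    rw [show 4 * n = 2 * n + n + n by ring, pow_add, pow_add]
    field_simp
  have h4 : 1 / 2 ^ (2 * n) * ((2 : ℝ) ^ (4 * n) / 2 ^ n) ≤ μ h * (2 ^ (4 * n) / 2 ^ n) := by
    gcongr
  linarith

/-- The martingale betting on the advice string. -/
noncomputable def leak (n : ℕ) (u : Option Str) (w : Str) : ℝ :=
  match u with
  | none => 1
  | some z => boost (z.take (4 * n)) z w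

theorem leak_nonneg (n : ℕ) (u : Option Str) (w : Str) : 0 ≤ leak n u w := by
  cases u with
  | none => exact zero_le_one
  | some z => exact boost_nonneg _ _ _

theorem leak_mart (n : ℕ) (u : Option Str) : IsMart (leak n u) := by
  cases u with
  | none => intro w; simp [leak]
  | some z => exact boost_mart (List.take_prefix _ z)

theorem leak_short (n : ℕ) (u : Option Str) (hu : ∀ z, u = some z → z.length = 5 * n) (w : Str)
    (hw : w.length ≤ n) : leak n u w = 1 := by
  cases u with
  | none => rfl
  | some z =>
    exact boost_short (List.take_prefix _ z) (by rw [List.length_take, hu z rfl]; omega)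

theorem leak_win (n : ℕ) (z : Str) (hz : z.length = 5 * n) : leak n (some z) z = 2 ^ n := by
  simp only [leak]
  rw [boost_win (List.take_prefix _ z) (List.prefix_refl z), List.length_take, hz,
    Nat.min_eq_left (by omega : 4 * n ≤ 5 * n), show 5 * n = 4 * n + n by ring, pow_add]
  field_simp

/-- One stage of the construction of the martingale. -/
noncomputable def nextM (k n : ℕ) (μ : Str → ℝ) (M : Str → ℝ) (u : Option Str) (w : Str) : ℝ :=
  M w + (1 / 2) ^ (k + 2) * (prior μ n w - 1 + (leak n u w - 1))

theorem nextM_mart (k n : ℕ) (μ : Str → ℝ) {M : Str → ℝ} (hM : IsMart M) (u : Option Str) :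
    IsMart (nextM k n μ M u) := by
  intro w
  unfold nextM
  rw [hM w, prior_mart μ n w, leak_mart n u w]
  ring

theorem nextM_short (k n : ℕ) (μ : Str → ℝ) (M : Str → ℝ) (u : Option Str)
    (hu : ∀ z, u = some z → z.length = 5 * n) (w : Str) (hw : w.length ≤ n) :
    nextM k n μ M u w = M w := by
  unfold nextM
  rw [prior_short μ n w hw, leak_short n u hu w hw]
  ring

theorem nextM_eq (k n : ℕ) (μ : Str → ℝ) (M : Str → ℝ) (u : Option Str) (w : Str) :
    nextM k n μ M u w - (1 / 2) ^ (k + 1) =
      M w - (1 / 2) ^ k + (1 / 2) ^ (k + 2) * (prior μ n w + leak n u w) := by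
  unfold nextM
  ring

end Pool.Agent.MP_e55146_lc
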