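import Pool.Agent.MP_e55146_lc.Params
import Pool.Agent.MP_e55146_lc.Guess
import Pool.Agent.MP_e55146_lc.Mart

/-! The oracle built from hidden witnesses and a table of a martingale. -/

namespace Pool.Agent.MP_e55146_lc

/-- The `9/10`-gale of a martingale. -/
noncomputable def galeOf (M : Str → ℝ) (w : Str) : ℝ := (2 : ℝ) ^ (-(w.length : ℝ) / 10) * M w

/-- Dyadic approximation. -/
noncomputable def approx (x : ℝ) (r : ℕ) : ℚ := (⌊2 ^ r * x⌋₊ : ℚ) / 2 ^ r

/-- The table entry. -/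
noncomputable def entry (M : Str → ℝ) (r : ℕ) (w : Str) : Str := ratCode (approx (galeOf M w) r)

/-- The oracle. -/
def orc (M : Str → ℝ) (ω : Om wl) : Set Str :=
  {q | (∃ x z, q = posQ x z ∧ z.length < x.length ^ 2) ∨
    (∃ i, bits ω i = true ∧ q = posQ (stdEnum i) (List.ofFn (ω i).2 ++ [false])) ∨
    (∃ r w i, q = posR (inputCode r w) (2 * i) ∧ i < (entry M r w).length) ∨
    (∃ r w i, q = posR (inputCode r w) (2 * i + 1) ∧ (entry M r w)[i]? = some true)}

theorem orc_witness (M : Str → ℝ) (ω : Om wl) (i : ℕ) (y : Fin (wl i) → Bool) :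
    posQ (stdEnum i) (List.ofFn y ++ [false]) ∈ orc M ω ↔ ω i = (true, y) := by
  constructor
  · rintro (⟨x, z, h, hz⟩ | ⟨j, hj, h⟩ | ⟨r, w, j, h, _⟩ | ⟨r, w, j, h, _⟩)
    · obtain ⟨rfl, rfl⟩ := posQ_inj h
      simp [wl] at hz
    · obtain ⟨h1, h2⟩ := posQ_inj h
      obtain rfl := stdEnum_inj h1
      have h3 := List.ofFn_injective (List.append_cancel_right h2)
      exact Prod.ext hj h3.symm
    · exact absurd h (posQ_ne_posR _ _ _ _)
    · exact absurd h (posQ_ne_posR _ _ _ _)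
  · intro h
    exact Or.inr (Or.inl ⟨i, by simp [bits, h], by rw [h]⟩)

theorem orc_dich (M : Str → ℝ) : Dich (orc M) := by
  intro q
  by_cases h : ∃ (i : ℕ) (y : Fin (wl i) → Bool), q = posQ (stdEnum i) (List.ofFn y ++ [false])
  · obtain ⟨i, y, rfl⟩ := h
    exact Or.inr ⟨i, y, fun ω => orc_witness M ω i y⟩
  · left
    have : ∀ ω : Om wl, ¬ ∃ i, bits ω i = true ∧
        q = posQ (stdEnum i) (List.ofFn (ω i).2 ++ [false]) := by
      rintro ω ⟨i, _, hi⟩
      exact h ⟨i, _, hi⟩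
    intro ω ω'
    simp only [orc, Set.mem_ofPred_eq, this]

theorem orc_congr (M M' : Str → ℝ) (ω : Om wl) (q : Str)
    (h : ∀ r w t, q = posR (inputCode r w) t → M w = M' w) : q ∈ orc M ω ↔ q ∈ orc M' ω := by
  have key : ∀ r w t, q = posR (inputCode r w) t → entry M r w = entry M' r w := by
    intro r w t hq
    simp only [entry, galeOf, h r w t hq]
  simp only [orc, Set.mem_ofPred_eq]
  apply or_congr Iff.rfl
  apply or_congr Iff.rfl
  apply or_congr
  · constructor
    · rintro ⟨r, w, i, h1, h2⟩; exact ⟨r, w, i, h1, key r w _ h1 ▸ h2⟩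
    · rintro ⟨r, w, i, h1, h2⟩; exact ⟨r, w, i, h1, (key r w _ h1).symm ▸ h2⟩
  · constructor
    · rintro ⟨r, w, i, h1, h2⟩; exact ⟨r, w, i, h1, key r w _ h1 ▸ h2⟩
    · rintro ⟨r, w, i, h1, h2⟩; exact ⟨r, w, i, h1, (key r w _ h1).symm ▸ h2⟩

theorem length_le_of_posR {q w : Str} {r t : ℕ} (h : q = posR (inputCode r w) t) :
    w.length ≤ q.length := by
  rw [h, length_posR, length_inputCode]; omega

theorem orc_even (M : Str → ℝ) (ω : Om wl) (r : ℕ) (w : Str) (i : ℕ) :
    posR (inputCode r w) (2 * i) ∈ orc M ω ↔ i < (entry M r w).length := by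
  constructor
  · rintro (⟨x, z, h, hz⟩ | ⟨j, hj, h⟩ | ⟨r', w', j, h, hj⟩ | ⟨r', w', j, h, _⟩)
    · exact absurd h.symm (posQ_ne_posR _ _ _ _)
    · exact absurd h.symm (posQ_ne_posR _ _ _ _)
    · obtain ⟨h1, h2⟩ := posR_inj h
      obtain ⟨rfl, rfl⟩ := inputCode_inj h1
      have : i = j := by omega
      rwa [this]
    · have := (posR_inj h).2
      omega
  · intro h
    exact Or.inr (Or.inr (Or.inl ⟨r, w, i, rfl, h⟩))

theorem orc_odd (M : Str → ℝ) (ω : Om wl) (r : ℕ) (w : Str) (i : ℕ) :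
    posR (inputCode r w) (2 * i + 1) ∈ orc M ω ↔ (entry M r w)[i]? = some true := by
  constructor
  · rintro (⟨x, z, h, hz⟩ | ⟨j, hj, h⟩ | ⟨r', w', j, h, hj⟩ | ⟨r', w', j, h, hj⟩)
    · exact absurd h.symm (posQ_ne_posR _ _ _ _)
    · exact absurd h.symm (posQ_ne_posR _ _ _ _)
    · have := (posR_inj h).2
      omega
    · obtain ⟨h1, h2⟩ := posR_inj h
      obtain ⟨rfl, rfl⟩ := inputCode_inj h1
      have : i = j := by omega
      rwa [this]
  · intro h
    exact Or.inr (Or.inr (Or.inr ⟨r, w, i, rfl, h⟩))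

/-- The language of hidden bits. -/
def hidden (ω : Om wl) : Set Str := {x | ∃ i, x = stdEnum i ∧ bits ω i = true}

theorem charSeq_hidden (ω : Om wl) : charSeq (hidden ω) = bits ω := by
  funext i
  unfold charSeq hidden
  cases h : bits ω i
  · simp only [Set.mem_ofPred_eq, decide_eq_false_iff_not]
    rintro ⟨j, h1, h2⟩
    obtain rfl := stdEnum_inj h1
    simp [h] at h2
  · simp only [Set.mem_ofPred_eq, decide_eq_true_eq]
    exact ⟨i, rfl, h⟩

theorem hidden_mem_NP (M : Str → ℝ) (ω : Om wl) : hidden ω ∈ NP (orc M ω) := by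
  have h0 : ∀ x z : Str, z.length < x.length ^ 2 → posQ x z ∈ orc M ω :=
    fun x z hz => Or.inl ⟨x, z, rfl, hz⟩
  have h1 : ∀ x z : Str, z.length = x.length ^ 2 → posQ x z ∉ orc M ω := by
    rintro x z hz (⟨x', z', h, hz'⟩ | ⟨j, hj, h⟩ | ⟨r', w', j, h, hj⟩ | ⟨r', w', j, h, hj⟩)
    · obtain ⟨rfl, rfl⟩ := posQ_inj h
      omega
    · obtain ⟨rfl, rfl⟩ := posQ_inj h
      simp [wl] at hz
    · exact absurd h (posQ_ne_posR _ _ _ _)
    · exact absurd h (posQ_ne_posR _ _ _ _)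
  let p : Polynomial ℕ := 2 * Polynomial.X + 6 + 2 * Polynomial.X ^ 2
  have hp : ∀ n, p.eval n = 2 * n + 6 + 2 * n ^ 2 := by intro n; simp [p]
  refine ⟨mach δN, p, fun x ch => ?_, fun x => ?_⟩
  · exact (runN_final _ x _ ch (h0 x) (h1 x) _ (by rw [hp])).1
  · constructor
    · rintro ⟨i, rfl, hi⟩
      let base := 2 * (stdEnum i).length + 2
      let y : ℕ → Bool := fun j => if h : j < wl i then (ω i).2 ⟨j, h⟩ else false
      refine ⟨fun t => y ((t - base) / 2), ?_⟩
      rw [(runN_final _ _ _ _ (h0 _) (h1 _) _ (by rw [hp])).2]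
      have : firstBits (fun j => y ((2 * (stdEnum i).length + 2 + 2 * j + 1 - base) / 2))
          ((stdEnum i).length ^ 2) = List.ofFn (ω i).2 := by
        apply List.ext_getElem
        · simp [wl]
        · intro j hj1 hj2
          have hj : j < wl i := by simpa using hj2
          have e : (2 * (stdEnum i).length + 2 + 2 * j + 1 - base) / 2 = j := by
            simp only [base]; omega
          simp [firstBits, e, y, hj]
      rw [this]
      exact Or.inr (Or.inl ⟨i, hi, rfl⟩)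
    · rintro ⟨ch, hch⟩
      rw [(runN_final _ _ _ _ (h0 _) (h1 _) _ (by rw [hp])).2] at hch
      rcases hch with ⟨x', z', h, hz'⟩ | ⟨j, hj, h⟩ | ⟨r', w', j, h, hj⟩ | ⟨r', w', j, h, hj⟩
      · obtain ⟨rfl, rfl⟩ := posQ_inj h
        simp at hz'
      · exact ⟨j, (posQ_inj h).1, hj⟩
      · exact absurd h (posQ_ne_posR _ _ _ _)
      · exact absurd h (posQ_ne_posR _ _ _ _)

theorem galeOf_nonneg {M : Str → ℝ} (h0 : ∀ w, 0 ≤ M w) (w : Str) : 0 ≤ galeOf M w :=
  mul_nonneg (by positivity) (h0 w)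

theorem galeOf_isGale {M : Str → ℝ} (hM : IsMart M) (h0 : ∀ w, 0 ≤ M w) :
    IsGale (9 / 10) (galeOf M) := by
  refine ⟨galeOf_nonneg h0, fun w => ?_⟩
  unfold galeOf
  simp only [List.length_append, List.length_singleton]
  rw [hM w, ← mul_add, ← mul_assoc, ← Real.rpow_add (by norm_num)]
  have : (-(9 / 10 : ℝ) + -((w.length + 1 : ℕ) : ℝ) / 10) = -(w.length : ℝ) / 10 + (-1) := by
    push_cast; ring
  rw [this, Real.rpow_add (by norm_num), Real.rpow_neg_one]
  ring

theorem approx_close (x : ℝ) (hx : 0 ≤ x) (r : ℕ) : |(approx x r : ℝ) - x| ≤ 1 / 2 ^ r := by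
  unfold approx
  push_cast
  have hp : (0 : ℝ) < 2 ^ r := by positivity
  have h1 := Nat.floor_le (show 0 ≤ 2 ^ r * x by positivity)
  have h2 := Nat.lt_floor_add_one (2 ^ r * x)
  have : (⌊2 ^ r * x⌋₊ : ℝ) / 2 ^ r - x = ((⌊2 ^ r * x⌋₊ : ℝ) - 2 ^ r * x) / 2 ^ r := by
    field_simp
  rw [this, abs_div, abs_of_pos hp]
  gcongr
  rw [abs_le]
  constructor <;> linarith

theorem galeOf_pcomputable {M : Str → ℝ} (hM : IsMart M) (h0 : ∀ w, 0 ≤ M w) (h1 : M [] = 1)
    (ω : Om wl) : PComputable (orc M ω) (galeOf M) := by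
  let p : Polynomial ℕ := 13 * Polynomial.X + 25
  have hp : ∀ n, p.eval n = 13 * n + 25 := by intro n; simp [p]
  refine ⟨fun a => approx (galeOf M a.2) a.1, mach δD, p, rfl, fun r w ch => ?_,
    fun r w => approx_close _ (galeOf_nonneg h0 w) r⟩
  have hlen : (entry M r w).length ≤ 2 * (r + w.length + 1) + r + 3 := by
    apply length_ratCode_dyadic
    have h2 : galeOf M w ≤ 2 ^ w.length := by
      have h3 : (2 : ℝ) ^ (-(w.length : ℝ) / 10) ≤ 1 :=
        Real.rpow_le_one_of_one_le_of_nonpos (by norm_num)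
          (by have : (0 : ℝ) ≤ w.length := by positivity
              linarith)
      have h4 := hM.le_pow h0 h1 w
      unfold galeOf
      nlinarith [h0 w]
    rw [Nat.floor_lt (mul_nonneg (by positivity) (galeOf_nonneg h0 w))]
    push_cast
    calc (2 : ℝ) ^ r * galeOf M w ≤ 2 ^ r * 2 ^ w.length := by gcongr
      _ < _ := by
        rw [← pow_add]
        exact pow_lt_pow_right₀ (by norm_num) (Nat.lt_succ_self _)
  apply runD_final (orc M ω) (inputCode r w) (entry M r w) ch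
  · intro i _; exact orc_even M ω r w i
  · intro i hi
    rw [orc_odd, List.getElem?_eq_getElem hi]
    simp
  · rw [hp, length_inputCode]; omega

end Pool.Agent.MP_e55146_lc
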