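import Pool.Agent.MP_e55146_lc.Codes

/-! Numerical parameters of the construction. -/

namespace Pool.Agent.MP_e55146_lc

open Filter

/-- Witness length for the `i`-th string. -/
def wl (i : ℕ) : ℕ := (stdEnum i).length ^ 2

theorem wl_mono : Monotone wl := fun _ _ h => Nat.pow_le_pow_left (length_stdEnum_mono h) 2

/-- The guessing probability is small at scale `n`. -/
def GoodG (κ a n : ℕ) : Prop :=
  ∃ low ≤ n, (2 : ℝ) ^ a * (n * ((2 * (2 * n + 4) ^ κ : ℕ) : ℝ) *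
    (1 / 2 ^ wl low + (2 * 2 ^ wl low) ^ low * 2 ^ n * (1 / 2 ^ (2 * n)))) ≤ 1

/-- Polynomial time is small at scale `n`. -/
def GoodL (κ n : ℕ) : Prop := ∀ i < 5 * n, ((stdEnum i).length + 2) ^ κ ≤ n

theorem two_sq_le (p : ℕ) (hp : 7 ≤ p) : 2 * p ^ 2 + 1 ≤ 2 ^ p := by
  induction p, hp using Nat.le_induction with
  | base => norm_num
  | succ p hp ih => rw [pow_succ 2 p]; nlinarith

theorem eventually_poly_le (κ : ℕ) : ∀ᶠ p : ℕ in atTop, (2 * p + 4) ^ κ ≤ 4 ^ p := by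
  have h := (isLittleO_pow_const_const_pow_of_one_lt (R := ℝ) κ (show (1 : ℝ) < 4 by norm_num)).bound
    (show (0 : ℝ) < 1 / 4 ^ κ by positivity)
  filter_upwards [h, eventually_ge_atTop 2] with p hp hp2
  rw [Real.norm_of_nonneg (by positivity), Real.norm_of_nonneg (by positivity)] at hp
  have h1 : (2 * p + 4) ^ κ ≤ (4 * p) ^ κ := Nat.pow_le_pow_left (by omega) _
  refine h1.trans ?_
  have h2 : (4 : ℝ) ^ κ * (p : ℝ) ^ κ ≤ 4 ^ p := by
    calc (4 : ℝ) ^ κ * (p : ℝ) ^ κ ≤ 4 ^ κ * (1 / 4 ^ κ * 4 ^ p) := by gcongr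
      _ = 4 ^ p := by field_simp
  rw [mul_pow]
  exact_mod_cast h2

theorem goodL_pow (κ p : ℕ) (h : (2 * p + 4) ^ κ ≤ 4 ^ p) : GoodL κ (4 ^ p) := by
  intro i hi
  refine le_trans (Nat.pow_le_pow_left ?_ _) h
  have : (stdEnum i).length ≤ 2 * p + 2 := by
    apply length_stdEnum_le
    have : 2 ^ (2 * p + 2 + 1) = 8 * 4 ^ p := by
      rw [pow_add, pow_add, pow_mul]; norm_num; ring
    omega
  omega

theorem goodG_pow (κ a p : ℕ) (hp : a + 4 * κ + 7 ≤ p) : GoodG κ a (4 ^ p) := by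
  have h2p : 0 < 2 ^ p := by positivity
  have h4 : 4 ^ p = 2 ^ p * 2 ^ p := by rw [← mul_pow]; norm_num
  have hlow : 2 ^ p - 1 ≤ 4 ^ p := by rw [h4]; nlinarith [Nat.sub_le (2 ^ p) 1]
  refine ⟨2 ^ p - 1, hlow, ?_⟩
  have hlen : (stdEnum (2 ^ p - 1)).length = p := by
    apply le_antisymm
    · apply length_stdEnum_le
      rw [pow_succ]; omega
    · apply le_length_stdEnum; omega
  have hwl : wl (2 ^ p - 1) = p ^ 2 := by rw [wl, hlen]
  rw [hwl]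
  set n := 4 ^ p with hn
  set E := a + 2 * p + 1 + (2 * p + 2) * κ with hE
  have hn2 : n = 2 ^ (2 * p) := by rw [hn, pow_mul]; norm_num
  have hn4 : 2 ≤ n := by
    rw [hn2]
    calc 2 = 2 ^ 1 := rfl
      _ ≤ _ := Nat.pow_le_pow_right (by norm_num) (by omega)
  have hX : 2 ^ a * (n * (2 * (2 * n + 4) ^ κ)) ≤ 2 ^ E := by
    have h1 : 2 * n + 4 ≤ 2 ^ (2 * p + 2) := by rw [pow_add, ← hn2]; omega
    have h2 : (2 * n + 4) ^ κ ≤ 2 ^ ((2 * p + 2) * κ) := by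
      rw [pow_mul]; exact Nat.pow_le_pow_left h1 _
    calc 2 ^ a * (n * (2 * (2 * n + 4) ^ κ)) ≤ 2 ^ a * (n * (2 * 2 ^ ((2 * p + 2) * κ))) := by
          gcongr
      _ = 2 ^ E := by rw [hE, hn2]; ring
  have hE1 : E + 1 ≤ p ^ 2 := by
    have : p * (a + 4 * κ + 7) ≤ p * p := Nat.mul_le_mul_left _ hp
    rw [hE]; nlinarith
  have hE2 : E + 1 + (p ^ 2 + 1) * (2 ^ p - 1) ≤ n := by
    have h1 := two_sq_le p (by omega)
    have h2 : (p ^ 2 + 1) * (2 ^ p - 1) ≤ (p ^ 2 + 1) * 2 ^ p :=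
      Nat.mul_le_mul_left _ (Nat.sub_le _ _)
    have h3 : (2 * p ^ 2 + 1) * 2 ^ p ≤ 2 ^ p * 2 ^ p := Nat.mul_le_mul_right _ h1
    have h5 : p ^ 2 ≤ p ^ 2 * 2 ^ p := Nat.le_mul_of_pos_right _ h2p
    rw [h4]
    nlinarith
  have hXR : (2 : ℝ) ^ a * (n * ((2 * (2 * n + 4) ^ κ : ℕ) : ℝ)) ≤ 2 ^ E := by exact_mod_cast hX
  have t1 : (2 : ℝ) ^ E * (1 / 2 ^ (p ^ 2)) ≤ 1 / 2 := by
    rw [mul_one_div, div_le_div_iff₀ (by positivity) (by norm_num), one_mul, ← pow_succ]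
    exact pow_le_pow_right₀ (by norm_num) hE1
  have t2 : (2 : ℝ) ^ E * ((2 * 2 ^ (p ^ 2)) ^ (2 ^ p - 1) * 2 ^ n * (1 / 2 ^ (2 * n))) ≤ 1 / 2 := by
    have e : (2 : ℝ) ^ E * ((2 * 2 ^ (p ^ 2)) ^ (2 ^ p - 1) * 2 ^ n * (1 / 2 ^ (2 * n))) =
        2 ^ (E + (p ^ 2 + 1) * (2 ^ p - 1)) / 2 ^ n := by
      rw [← pow_succ', ← pow_mul, two_mul n, pow_add (2 : ℝ) n n, pow_add (2 : ℝ) E]
      field_simp
    rw [e, div_le_div_iff₀ (by positivity) (by norm_num), one_mul, ← pow_succ]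
    exact pow_le_pow_right₀ (by norm_num) (by omega)
  calc _ = ((2 : ℝ) ^ a * (n * ((2 * (2 * n + 4) ^ κ : ℕ) : ℝ))) *
        (1 / 2 ^ (p ^ 2) + (2 * 2 ^ (p ^ 2)) ^ (2 ^ p - 1) * 2 ^ n * (1 / 2 ^ (2 * n))) := by ring
    _ ≤ 2 ^ E *
        (1 / 2 ^ (p ^ 2) + (2 * 2 ^ (p ^ 2)) ^ (2 ^ p - 1) * 2 ^ n * (1 / 2 ^ (2 * n))) := by gcongr
    _ ≤ 1 := by rw [mul_add]; linarith

theorem exists_good (κ a lb : ℕ) : ∃ n, lb ≤ n ∧ GoodG κ a n ∧ GoodL κ n := by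
  obtain ⟨p, h1, h2⟩ :=
    ((eventually_poly_le κ).and (eventually_ge_atTop (a + 4 * κ + 7 + lb))).exists
  refine ⟨4 ^ p, ?_, goodG_pow κ a p (by omega), goodL_pow κ p h1⟩
  have : p < 4 ^ p := Nat.lt_pow_self (by norm_num)
  omega

/-- The advice budget before stage `κ`. -/
def budget (n : ℕ → ℕ) : ℕ → ℕ
  | 0 => 3
  | κ + 1 => 6 * n κ

/-- The requirements on the scales. -/
structure Params (n : ℕ → ℕ) : Prop where
  big : ∀ κ, 4 * κ + 6 ≤ n κ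
  grow : ∀ κ, 16 * n κ ≤ n (κ + 1)
  reach : ∀ κ, (2 * n κ + 4) ^ κ ≤ n (κ + 1)
  goodG : ∀ κ, GoodG κ (budget n κ) (n κ)
  goodL : ∀ κ, GoodL κ (n κ)

theorem exists_params : ∃ n, Params n := by
  choose F hF using exists_good
  let n : ℕ → ℕ := fun κ => Nat.rec (F 0 3 6)
    (fun κ m => F (κ + 1) (6 * m) ((2 * m + 4) ^ κ + 16 * m + 4 * κ + 10)) κ
  have h0 : n 0 = F 0 3 6 := rfl
  have hs : ∀ κ, n (κ + 1) =
      F (κ + 1) (6 * n κ) ((2 * n κ + 4) ^ κ + 16 * n κ + 4 * κ + 10) := fun _ => rfl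
  have hlb : ∀ κ, (2 * n κ + 4) ^ κ + 16 * n κ + 4 * κ + 10 ≤ n (κ + 1) := fun κ => by
    rw [hs]; exact (hF _ _ _).1
  refine ⟨n, ⟨?_, ?_, ?_, ?_, ?_⟩⟩
  · intro κ
    cases κ with
    | zero => rw [h0]; exact (hF _ _ _).1
    | succ κ => have := hlb κ; omega
  · intro κ; have := hlb κ; omega
  · intro κ; have := hlb κ; omega
  · intro κ
    cases κ with
    | zero => rw [h0]; exact (hF _ _ _).2.1
    | succ κ => rw [hs]; exact (hF _ _ _).2.1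
  · intro κ
    cases κ with
    | zero => rw [h0]; exact (hF _ _ _).2.2
    | succ κ => rw [hs]; exact (hF _ _ _).2.2

theorem Params.mono {n : ℕ → ℕ} (h : Params n) : Monotone n :=
  monotone_nat_of_le_succ fun κ => by have := h.grow κ; omega

theorem Params.budget_le {n : ℕ → ℕ} (h : Params n) (κ : ℕ) : budget n κ + 3 ≤ n κ := by
  cases κ with
  | zero => have := h.big 0; simp only [budget]; omega
  | succ κ => have := h.grow κ; have := h.big κ; simp only [budget]; omega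

/-- The basic growth rate `2 ^ (1 / 32)`. -/
noncomputable def σ : ℝ := (2 : ℝ) ^ (1 / 32 : ℝ)

theorem one_lt_σ : 1 < σ := Real.one_lt_rpow (by norm_num) (by norm_num)

theorem σ_pow : σ ^ 32 = 2 := by
  unfold σ
  rw [← Real.rpow_natCast, ← Real.rpow_mul (by norm_num)]
  norm_num

theorem exp_le_σ_sq : Real.exp (1 / 32) ≤ σ ^ 2 := by
  have : σ ^ 2 = Real.exp (Real.log 2 * (1 / 16)) := by
    unfold σ
    rw [← Real.rpow_natCast, ← Real.rpow_mul (by norm_num), Real.rpow_def_of_pos (by norm_num)]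
    norm_num
  rw [this]
  apply Real.exp_le_exp.2
  have := Real.log_two_gt_d9
  linarith

theorem prod_le_geom (a : ℕ → ℝ) (ρ : ℝ) (hρ : 1 ≤ ρ) (h1 : ∀ j, 1 ≤ a j) (j0 : ℕ)
    (h2 : ∀ j, j0 ≤ j → a j ≤ ρ) :
    ∃ C : ℝ, 0 < C ∧ ∀ m, ∏ j ∈ Finset.range m, a j ≤ C * ρ ^ m := by
  have hpos : ∀ m, 0 < ∏ j ∈ Finset.range m, a j :=
    fun m => Finset.prod_pos fun j _ => by linarith [h1 j]
  refine ⟨∏ j ∈ Finset.range j0, a j, hpos j0, fun m => ?_⟩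
  have hle : ∀ m ≤ j0, ∏ j ∈ Finset.range m, a j ≤ (∏ j ∈ Finset.range j0, a j) * ρ ^ m := by
    intro m hm
    have e1 : ∏ j ∈ Finset.range m, a j ≤ ∏ j ∈ Finset.range j0, a j :=
      Finset.prod_le_prod_of_subset_of_one_le (Finset.range_mono hm)
        (fun j _ => by linarith [h1 j]) (fun j _ _ => h1 j)
    exact e1.trans (le_mul_of_one_le_right (hpos j0).le (one_le_pow₀ hρ))
  rcases le_total m j0 with hm | hm
  · exact hle m hm
  · induction m, hm using Nat.le_induction with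
    | base => exact hle j0 le_rfl
    | succ m hm ih =>
      rw [Finset.prod_range_succ, pow_succ, ← mul_assoc]
      exact mul_le_mul ih (h2 m hm) (by linarith [h1 m])
        (mul_nonneg (hpos j0).le (pow_nonneg (by linarith) _))

theorem gamma_le (c : ℕ) : ∃ C : ℝ, 0 < C ∧ ∀ m,
    ∏ j ∈ Finset.range m, (1 + 1 / (2 : ℝ) ^ wl j) ^ (2 * (2 * j + 4) ^ c) ≤ C * (σ ^ 2) ^ m := by
  apply prod_le_geom _ _ (one_le_pow₀ one_lt_σ.le) _ (2 ^ (c + 6))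
  · intro j hj
    set g := (stdEnum j).length with hg
    have hg1 : c + 6 ≤ g := le_length_stdEnum (by omega)
    have hg2 : j + 1 < 2 ^ (g + 1) := lt_two_pow_length_stdEnum j
    have h3 : 2 * j + 4 ≤ 2 ^ (g + 3) := by
      have : 2 ^ (g + 3) = 4 * 2 ^ (g + 1) := by ring
      omega
    have h4 : 32 * (2 * (2 * j + 4) ^ c) ≤ 2 ^ wl j := by
      calc 32 * (2 * (2 * j + 4) ^ c) ≤ 32 * (2 * (2 ^ (g + 3)) ^ c) := by gcongr
        _ = 2 ^ (6 + (g + 3) * c) := by rw [← pow_mul, pow_add]; ring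
        _ ≤ 2 ^ wl j := by
          apply Nat.pow_le_pow_right (by norm_num)
          rw [wl, ← hg]
          nlinarith
    have h5 : ((2 * (2 * j + 4) ^ c : ℕ) : ℝ) * (1 / (2 : ℝ) ^ wl j) ≤ 1 / 32 := by
      rw [mul_one_div, div_le_div_iff₀ (by positivity) (by norm_num), one_mul, mul_comm]
      exact_mod_cast h4
    calc (1 + 1 / (2 : ℝ) ^ wl j) ^ (2 * (2 * j + 4) ^ c)
        ≤ (Real.exp (1 / (2 : ℝ) ^ wl j)) ^ (2 * (2 * j + 4) ^ c) := by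
          gcongr
          rw [add_comm]; exact Real.add_one_le_exp _
      _ = Real.exp (((2 * (2 * j + 4) ^ c : ℕ) : ℝ) * (1 / (2 : ℝ) ^ wl j)) := by
          rw [Real.exp_nat_mul]
      _ ≤ Real.exp (1 / 32) := Real.exp_le_exp.2 h5
      _ ≤ σ ^ 2 := exp_le_σ_sq
  · intro j
    apply one_le_pow₀
    have : (0 : ℝ) ≤ 1 / 2 ^ wl j := by positivity
    linarith

end Pool.Agent.MP_e55146_lc
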