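import Pool.Agent.MP_e55146_lc.Oracle

/-! The stage construction of the helper martingale, and its success on NP. -/

namespace Pool.Agent.MP_e55146_lc

open MeasureTheory Filter

/-- An enumeration of all machines. -/
noncomputable def enumTM : ℕ → OracleTM := (exists_surjective_nat OracleTM).choose

theorem enumTM_surj : Function.Surjective enumTM := (exists_surjective_nat OracleTM).choose_spec

/-- The machine treated at stage `k`. -/
noncomputable def mcM (k : ℕ) : OracleTM := enumTM k.unpair.1.unpair.1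

/-- The exponent treated at stage `k`. -/
def mcC (k : ℕ) : ℕ := k.unpair.1.unpair.2

theorem mcC_le (k : ℕ) : mcC k ≤ k :=
  (Nat.unpair_right_le _).trans (Nat.unpair_left_le _)

theorem exists_stage (M : OracleTM) (c N : ℕ) : ∃ k, N ≤ k ∧ mcM k = M ∧ mcC k = c := by
  obtain ⟨a, rfl⟩ := enumTM_surj M
  exact ⟨Nat.pair (Nat.pair a c) N, Nat.right_le_pair _ _, by simp [mcM], by simp [mcC]⟩

/-- The language accepted by the clocked machine of stage `k`. -/
def lang (k : ℕ) (A : Set Str) : Set Str :=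
  {x | ∃ ch, ((mcM k).run A x ch ((x.length + 2) ^ mcC k)).state = State.accept}

/-- The first bits of the language of stage `k`. -/
noncomputable def word (k L : ℕ) (A : Set Str) : Str := firstBits (charSeq (lang k A)) L

theorem word_local {k n L : ℕ} (hL : L ≤ 5 * n) (hg : GoodL k n) (A A' : Set Str)
    (h : ∀ q : Str, q.length ≤ n → (q ∈ A ↔ q ∈ A')) : word k L A = word k L A' := by
  apply firstBits_congr
  intro i hi
  have h1 : ((stdEnum i).length + 2) ^ mcC k ≤ n :=
    (Nat.pow_le_pow_right (by omega) (mcC_le k)).trans (hg i (by omega))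
  have h2 : stdEnum i ∈ lang k A ↔ stdEnum i ∈ lang k A' := by
    simp only [lang, Set.mem_ofPred_eq]
    apply exists_congr
    intro ch
    rw [OracleTM.run_local _ A A' _ ch _ (fun q hq => h q (hq.trans h1))]
  unfold charSeq
  exact decide_eq_decide.2 h2

variable (n : ℕ → ℕ)

/-- The prior distribution of the word of stage `k`. -/
noncomputable def mu (k : ℕ) (M : Str → ℝ) (h : Str) : ℝ :=
  (Pr wl).real {ω | word k (4 * n k) (orc M ω) = h}

theorem mu_nonneg (k : ℕ) (M : Str → ℝ) (h : Str) : 0 ≤ mu n k M h := measureReal_nonneg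

theorem sum_mu_le {n : ℕ → ℕ} (hn : Params n) (k : ℕ) (M : Str → ℝ) :
    ∑ h ∈ words (4 * n k), mu n k M h ≤ 1 :=
  sum_prob_le_one (orc_dich M) (word k (4 * n k)) (n k)
    (fun A A' h => word_local (by omega) (hn.goodL k) A A' h) _

/-- One stage. -/
noncomputable def nxt (k : ℕ) (M : Str → ℝ) (u : Option Str) : Str → ℝ :=
  nextM k (n k) (mu n k M) M u

open Classical in
/-- The advice of stage `k`. -/
noncomputable def adv (k : ℕ) (M : Str → ℝ) (ω : Om wl) : Option Str :=
  if mu n k M (word k (4 * n k) (orc M ω)) < 1 / 2 ^ (2 * n k)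
  then some (word k (5 * n k) (orc M ω)) else none

/-- The martingale after `k` stages. -/
noncomputable def Mst (ω : Om wl) : ℕ → Str → ℝ
  | 0 => fun _ => 1
  | k + 1 => nxt n k (Mst ω k) (adv n k (Mst ω k) ω)

open Classical in
/-- The possible martingales after `k` stages. -/
noncomputable def MS : ℕ → Finset (Str → ℝ)
  | 0 => {fun _ => 1}
  | k + 1 => (MS k ×ˢ Finset.insertNone (words (5 * n k))).image (fun a => nxt n k a.1 a.2)

/-- The limit martingale. -/
noncomputable def Minf (ω : Om wl) (w : Str) : ℝ := Mst n ω w.length w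

theorem adv_length (k : ℕ) (M : Str → ℝ) (ω : Om wl) (z : Str) (h : adv n k M ω = some z) :
    z.length = 5 * n k := by
  unfold adv at h
  split_ifs at h
  rw [← Option.some.inj h]
  simp [word]

theorem Mst_mem (ω : Om wl) (k : ℕ) : Mst n ω k ∈ MS n k := by
  classical
  induction k with
  | zero => simp [Mst, MS]
  | succ k ih =>
    simp only [Mst, MS]
    refine Finset.mem_image.2 ⟨(Mst n ω k, adv n k (Mst n ω k) ω), ?_, rfl⟩
    refine Finset.mem_product.2 ⟨ih, Finset.mem_insertNone.2 ?_⟩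
    intro z hz
    exact mem_words.2 (adv_length n k _ ω z hz)

theorem card_MS {n : ℕ → ℕ} (hn : Params n) (k : ℕ) :
    (k + 1) * (MS n k).card * 2 ^ (k + 3) ≤ 2 ^ budget n k := by
  classical
  induction k with
  | zero => simp [MS, budget]
  | succ k ih =>
    have h1 : (MS n (k + 1)).card ≤ (MS n k).card * 2 ^ (5 * n k + 1) := by
      simp only [MS]
      refine Finset.card_image_le.trans ?_
      rw [Finset.card_product, Finset.card_insertNone]
      apply Nat.mul_le_mul_left
      have := card_words (5 * n k)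
      have h2 : 0 < 2 ^ (5 * n k) := by positivity
      rw [pow_succ]; omega
    have h2 := hn.budget_le k
    calc (k + 1 + 1) * (MS n (k + 1)).card * 2 ^ (k + 1 + 3)
        ≤ (2 * (k + 1)) * ((MS n k).card * 2 ^ (5 * n k + 1)) * 2 ^ (k + 1 + 3) := by
          gcongr; omega
      _ = ((k + 1) * (MS n k).card * 2 ^ (k + 3)) * 2 ^ (5 * n k + 3) := by ring
      _ ≤ 2 ^ budget n k * 2 ^ (5 * n k + 3) := by gcongr
      _ ≤ _ := by
        rw [← pow_add]
        exact Nat.pow_le_pow_right (by norm_num) (by simp only [budget] at *; omega)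

theorem Mst_mart (ω : Om wl) (k : ℕ) : IsMart (Mst n ω k) := by
  induction k with
  | zero => intro w; simp [Mst]
  | succ k ih => exact nextM_mart _ _ _ ih _

theorem Mst_stable {n : ℕ → ℕ} (hn : Params n) (ω : Om wl) (w : Str) {k k' : ℕ} (h : k ≤ k')
    (hw : w.length ≤ n k) : Mst n ω k' w = Mst n ω k w := by
  induction k', h using Nat.le_induction with
  | base => rfl
  | succ j hj ih =>
    rw [← ih]
    exact nextM_short _ _ _ _ _ (adv_length n j _ ω) w (hw.trans (hn.mono hj))

theorem Minf_eq {n : ℕ → ℕ} (hn : Params n) (ω : Om wl) (w : Str) {k : ℕ}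
    (hw : w.length ≤ n k) : Minf n ω w = Mst n ω k w := by
  have h1 : w.length ≤ n w.length := by have := hn.big w.length; omega
  unfold Minf
  rw [← Mst_stable hn ω w (le_max_left w.length k) h1, Mst_stable hn ω w (le_max_right _ _) hw]

theorem Mst_step_ge {n : ℕ → ℕ} (hn : Params n) (ω : Om wl) (w : Str) (k : ℕ) :
    Mst n ω k w - (1 / 2) ^ k ≤ Mst n ω (k + 1) w - (1 / 2) ^ (k + 1) := by
  simp only [Mst, nxt]
  rw [nextM_eq]
  have h1 := prior_nonneg (mu_nonneg n k (Mst n ω k)) (sum_mu_le hn k _) w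
  have h2 := leak_nonneg (n k) (adv n k (Mst n ω k) ω) w
  have : (0 : ℝ) ≤ (1 / 2) ^ (k + 2) * (prior (mu n k (Mst n ω k)) (n k) w +
    leak (n k) (adv n k (Mst n ω k) ω) w) := by positivity
  linarith

theorem Mst_mono {n : ℕ → ℕ} (hn : Params n) (ω : Om wl) (w : Str) :
    Monotone (fun k => Mst n ω k w - (1 / 2) ^ k) :=
  monotone_nat_of_le_succ (Mst_step_ge hn ω w)

theorem Mst_ge {n : ℕ → ℕ} (hn : Params n) (ω : Om wl) (w : Str) (k : ℕ) :
    (1 / 2) ^ k ≤ Mst n ω k w := by
  have := Mst_mono hn ω w (Nat.zero_le k)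
  simp only [Mst, pow_zero, sub_self] at this
  linarith

theorem Minf_nonneg {n : ℕ → ℕ} (hn : Params n) (ω : Om wl) (w : Str) : 0 ≤ Minf n ω w :=
  le_trans (by positivity) (Mst_ge hn ω w _)

theorem Minf_nil (ω : Om wl) : Minf n ω [] = 1 := rfl

theorem Minf_mart {n : ℕ → ℕ} (hn : Params n) (ω : Om wl) : IsMart (Minf n ω) := by
  intro w
  have h1 : w.length + 1 ≤ n (w.length + 1) := by have := hn.big (w.length + 1); omega
  rw [Minf_eq hn ω w (k := w.length + 1) (by omega),
    Minf_eq hn ω (w ++ [false]) (k := w.length + 1) (by simpa using h1),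
    Minf_eq hn ω (w ++ [true]) (k := w.length + 1) (by simpa using h1)]
  exact Mst_mart n ω _ w

theorem word_true {n : ℕ → ℕ} (hn : Params n) (ω : Om wl) (k L : ℕ) (hL : L ≤ 5 * n k) :
    word k L (orc (Minf n ω) ω) = word k L (orc (Mst n ω k) ω) := by
  apply word_local hL (hn.goodL k)
  intro q hq
  apply orc_congr
  intro r w t h
  exact Minf_eq hn ω w ((length_le_of_posR h).trans hq)

theorem Minf_win {n : ℕ → ℕ} (hn : Params n) (ω : Om wl) (k : ℕ) :
    (1 / 2) ^ (k + 2) * 2 ^ n k ≤ Minf n ω (word k (5 * n k) (orc (Minf n ω) ω)) := by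
  rw [word_true hn ω k _ le_rfl]
  set W := word k (5 * n k) (orc (Mst n ω k) ω) with hW
  have hWl : W.length = 5 * n k := by simp [hW, word]
  have h1 : W.length ≤ n (k + 1) := by have := hn.grow k; omega
  rw [Minf_eq hn ω W h1]
  have h2 := nextM_eq k (n k) (mu n k (Mst n ω k)) (Mst n ω k) (adv n k (Mst n ω k) ω) W
  have h3 := Mst_ge hn ω W k
  have h4 : (2 : ℝ) ^ n k ≤ prior (mu n k (Mst n ω k)) (n k) W +
      leak (n k) (adv n k (Mst n ω k) ω) W := by
    have p1 := prior_nonneg (mu_nonneg n k (Mst n ω k)) (sum_mu_le hn k _) W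
    have p2 := leak_nonneg (n k) (adv n k (Mst n ω k) ω) W
    by_cases hc : mu n k (Mst n ω k) (word k (4 * n k) (orc (Mst n ω k) ω)) < 1 / 2 ^ (2 * n k)
    · have : adv n k (Mst n ω k) ω = some W := by simp only [adv, if_pos hc, hW]
      rw [this, leak_win _ _ hWl]
      linarith
    · have := prior_win (mu_nonneg n k (Mst n ω k)) (sum_mu_le hn k _)
        (word k (4 * n k) (orc (Mst n ω k) ω)) W (by simp [word]) (by
          rw [hW]; unfold word
          rw [← take_firstBits _ (show 4 * n k ≤ 5 * n k by omega)]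
          exact List.take_prefix _ _) (not_lt.1 hc)
      linarith
  have h5 : (1 / 2 : ℝ) ^ (k + 2) * 2 ^ n k ≤ (1 / 2) ^ (k + 2) *
      (prior (mu n k (Mst n ω k)) (n k) W + leak (n k) (adv n k (Mst n ω k) ω) W) := by gcongr
  have h6 : (0 : ℝ) < (1 / 2) ^ (k + 1) := by positivity
  simp only [Mst, nxt]
  linarith

theorem gale_win {n : ℕ → ℕ} (hn : Params n) (ω : Om wl) (k : ℕ) :
    (2 : ℝ) ^ k ≤ galeOf (Minf n ω) (word k (5 * n k) (orc (Minf n ω) ω)) := by
  have h1 := Minf_win hn ω k
  have h2 := hn.big k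
  unfold galeOf
  have hl : (word k (5 * n k) (orc (Minf n ω) ω)).length = 5 * n k := by simp [word]
  rw [hl]
  refine le_trans ?_ (mul_le_mul_of_nonneg_left h1 (by positivity))
  have e : (2 : ℝ) ^ (-((5 * n k : ℕ) : ℝ) / 10) * ((1 / 2) ^ (k + 2) * 2 ^ n k) =
      (2 : ℝ) ^ (-((5 * n k : ℕ) : ℝ) / 10 + (-((k + 2 : ℕ) : ℝ) + (n k : ℝ))) := by
    rw [Real.rpow_add (by norm_num), Real.rpow_add (by norm_num), Real.rpow_neg (by norm_num),
      Real.rpow_natCast, Real.rpow_natCast]
    simp
  rw [e, ← Real.rpow_natCast]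
  apply Real.rpow_le_rpow_of_exponent_le (by norm_num)
  have : (4 * k + 6 : ℝ) ≤ n k := by exact_mod_cast h2
  push_cast
  linarith

theorem succeeds_of_frequently (d : Str → ℝ) (X : ℕ → Bool)
    (h : ∀ C : ℝ, ∀ N, ∃ m, N ≤ m ∧ C ≤ d (firstBits X m)) : Succeeds d X := by
  unfold Succeeds
  rw [EReal.eq_top_iff_forall_lt]
  intro y
  have : ((y + 1 : ℝ) : EReal) ≤
      limsup (fun n => ((d (firstBits X n) : ℝ) : EReal)) atTop := by
    refine le_limsup_of_frequently_le ?_
    rw [frequently_atTop]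
    intro N
    obtain ⟨m, h1, h2⟩ := h (y + 1) N
    exact ⟨m, h1, EReal.coe_le_coe_iff.2 h2⟩
  exact lt_of_lt_of_le (EReal.coe_lt_coe_iff.2 (by linarith)) this

theorem not_succeeds_of_bounded (d : Str → ℝ) (X : ℕ → Bool) (B : ℝ) (N : ℕ)
    (h : ∀ m, N ≤ m → d (firstBits X m) ≤ B) : ¬ Succeeds d X := by
  unfold Succeeds
  have : limsup (fun n => ((d (firstBits X n) : ℝ) : EReal)) atTop ≤ (B : EReal) := by
    apply limsup_le_of_le
    · isBoundedDefault
    · filter_upwards [eventually_ge_atTop N] with m hm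
      exact EReal.coe_le_coe_iff.2 (h m hm)
  intro e
  rw [e] at this
  exact absurd this (not_le.2 (EReal.coe_lt_top B))

theorem helper_succeeds {n : ℕ → ℕ} (hn : Params n) (ω : Om wl) (L : Set Str)
    (hL : L ∈ NP (orc (Minf n ω) ω)) : Succeeds (galeOf (Minf n ω)) (charSeq L) := by
  obtain ⟨M, p, hh, hacc⟩ := hL
  obtain ⟨c, hc⟩ := poly_le_pow p
  apply succeeds_of_frequently
  intro C N
  obtain ⟨K, hK⟩ := pow_unbounded_of_one_lt C (show (1 : ℝ) < 2 by norm_num)
  obtain ⟨k, hk, hM, hC⟩ := exists_stage M c (N + K)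
  have hlang : lang k (orc (Minf n ω) ω) = L := by
    ext x
    rw [hacc x]
    subst hM
    simp only [lang, Set.mem_ofPred_eq, hC]
    apply exists_congr
    intro ch
    rw [OracleTM.run_of_halted _ _ x ch (hc x.length) (hh x ch)]
  refine ⟨5 * n k, by have := hn.big k; omega, ?_⟩
  have h1 := gale_win hn ω k
  unfold word at h1
  rw [hlang] at h1
  have h2 : (2 : ℝ) ^ K ≤ 2 ^ k := pow_le_pow_right₀ (by norm_num) (by omega)
  linarith

end Pool.Agent.MP_e55146_lc
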