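import Pool.Agent.MP_e55146_lc.DT

/-! Basic facts on oracle machines: halting, locality, decision trees, countability. -/

namespace Pool.Agent.MP_e55146_lc

@[simp] theorem tapeOf_nat (s : Str) (i : ℕ) : tapeOf s (i : ℤ) = s[i]? := rfl

theorem tapeOf_update (s : Str) (b : Bool) :
    Function.update (tapeOf s) (s.length : ℤ) (some b) = tapeOf (s ++ [b]) := by
  funext i
  by_cases h : i = (s.length : ℤ)
  · subst h; simp
  · rw [Function.update_of_ne h]
    cases i with
    | ofNat i =>
      have hi : i ≠ s.length := fun e => h (by simp [e])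
      show s[i]? = (s ++ [b])[i]?
      rcases lt_or_gt_of_ne hi with h1 | h1
      · rw [List.getElem?_append_left h1]
      · rw [List.getElem?_eq_none (by omega), List.getElem?_eq_none (by simp; omega)]
    | negSucc i => rfl

theorem Holds.unique {t : ℤ → Option Bool} {s s' : Str} (h : Holds t s) (h' : Holds t s') :
    s = s' := by
  have key : ∀ {a b : Str}, Holds t a → Holds t b → a.length ≤ b.length := by
    intro a b ha hb
    by_contra hlt
    have h1 := ha b.length (by omega)
    have h2 := hb b.length le_rfl
    rw [h2] at h1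
    rw [List.getElem?_eq_none le_rfl, List.getElem?_eq_getElem (by omega)] at h1
    simp at h1
  have hl : s.length = s'.length := le_antisymm (key h h') (key h' h)
  apply List.ext_getElem?
  intro i
  by_cases hi : i ≤ s.length
  · rw [← h i hi, ← h' i (hl ▸ hi)]
  · rw [List.getElem?_eq_none (by omega), List.getElem?_eq_none (by omega)]

theorem holds_tapeOf (s : Str) : Holds (tapeOf s) s := fun _ _ => rfl

theorem exists_holds_tapeOf (A : Set Str) (s : Str) :
    (∃ s' ∈ A, Holds (tapeOf s) s') ↔ s ∈ A := by
  constructor
  · rintro ⟨s', h1, h2⟩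
    rwa [(holds_tapeOf s).unique h2]
  · intro h; exact ⟨s, h, holds_tapeOf s⟩

namespace OracleTM

variable (M : OracleTM)

theorem step_halted (A : Set Str) (b : Bool) (c : Config M) (h : c.Halted) : M.step A b c = c := by
  unfold step
  rcases h with h | h <;> simp [h]

open Classical in
theorem step_query (A : Set Str) (b : Bool) (c : Config M) (h : c.state = State.query) :
    M.step A b c = { c with
      state := if ∃ s ∈ A, Holds (c.tape TapeName.oracle) s then State.yes else State.no } := by
  unfold step
  simp [h]

theorem step_move (A : Set Str) (b : Bool) (c : Config M) (h1 : c.state ≠ State.accept)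
    (h2 : c.state ≠ State.reject) (h3 : c.state ≠ State.query) : M.step A b c = M.move b c := by
  unfold step
  split <;> simp_all

theorem run_of_halted (A : Set Str) (x : Str) (ch : ℕ → Bool) {t t' : ℕ} (h : t ≤ t')
    (hh : (M.run A x ch t).Halted) : M.run A x ch t' = M.run A x ch t := by
  induction t', h using Nat.le_induction with
  | base => rfl
  | succ n _ ih => rw [run, ih, step_halted _ _ _ _ hh]

/-- The oracle tape is blank from cell `t` on and its head is at most at cell `t`. -/
def Inv (c : Config M) (t : ℕ) : Prop :=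
  c.head TapeName.oracle ≤ t ∧ ∀ i : ℤ, (t : ℤ) ≤ i → c.tape TapeName.oracle i = none

theorem inv_init (x : Str) : M.Inv (M.init x) 0 := by
  refine ⟨le_rfl, fun i _ => ?_⟩
  cases i <;> simp [init, tapeOf]

theorem inv_step (A : Set Str) (b : Bool) (c : Config M) (t : ℕ) (h : M.Inv c t) :
    M.Inv (M.step A b c) (t + 1) := by
  have hweak : ∀ c' : Config M, c'.head = c.head → c'.tape = c.tape → M.Inv c' (t + 1) := by
    intro c' h1 h2
    refine ⟨?_, fun i hi => ?_⟩
    · rw [h1]; have := h.1; push_cast; omega
    · rw [h2]; exact h.2 i (by push_cast at hi; omega)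
  by_cases h1 : c.state = State.accept
  · rw [step_halted _ _ _ _ (Or.inl h1)]; exact hweak c rfl rfl
  by_cases h2 : c.state = State.reject
  · rw [step_halted _ _ _ _ (Or.inr h2)]; exact hweak c rfl rfl
  by_cases h3 : c.state = State.query
  · rw [step_query _ _ _ _ h3]; exact hweak _ rfl rfl
  rw [step_move _ _ _ _ h1 h2 h3]
  refine ⟨?_, fun i hi => ?_⟩
  · have := h.1
    have h4 : ∀ s : SignType, (s : ℤ) ≤ 1 := by intro s; cases s <;> simp
    simp only [move]
    have := h4 ((M.δ b c.state (fun t => c.tape t (c.head t))).2 TapeName.oracle).2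
    push_cast; omega
  · have := h.1
    simp only [move]
    rw [Function.update_of_ne (by push_cast at hi; omega)]
    exact h.2 i (by push_cast at hi; omega)

theorem inv_run (A : Set Str) (x : Str) (ch : ℕ → Bool) (t : ℕ) : M.Inv (M.run A x ch t) t := by
  induction t with
  | zero => exact M.inv_init x
  | succ t ih => exact M.inv_step A _ _ t ih

theorem Inv.length_le {M : OracleTM} {c : Config M} {t : ℕ} (h : M.Inv c t) {s : Str}
    (hs : Holds (c.tape TapeName.oracle) s) : s.length ≤ t := by
  by_contra hlt
  have h1 := hs t (by omega)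
  rw [h.2 t le_rfl, List.getElem?_eq_getElem (by omega)] at h1
  simp at h1

theorem step_congr (A A' : Set Str) (b : Bool) (c : Config M)
    (h : ∀ s, Holds (c.tape TapeName.oracle) s → (s ∈ A ↔ s ∈ A')) :
    M.step A b c = M.step A' b c := by
  have : (∃ s ∈ A, Holds (c.tape TapeName.oracle) s) ↔
      (∃ s ∈ A', Holds (c.tape TapeName.oracle) s) := by
    constructor
    · rintro ⟨s, h1, h2⟩; exact ⟨s, (h s h2).1 h1, h2⟩
    · rintro ⟨s, h1, h2⟩; exact ⟨s, (h s h2).2 h1, h2⟩
  by_cases h1 : c.state = State.accept
  · rw [step_halted _ _ _ _ (Or.inl h1), step_halted _ _ _ _ (Or.inl h1)]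
  by_cases h2 : c.state = State.reject
  · rw [step_halted _ _ _ _ (Or.inr h2), step_halted _ _ _ _ (Or.inr h2)]
  by_cases h3 : c.state = State.query
  · rw [step_query _ _ _ _ h3, step_query _ _ _ _ h3, propext this]
  rw [step_move _ _ _ _ h1 h2 h3, step_move _ _ _ _ h1 h2 h3]

theorem run_local (A A' : Set Str) (x : Str) (ch : ℕ → Bool) (T : ℕ)
    (h : ∀ q : Str, q.length ≤ T → (q ∈ A ↔ q ∈ A')) :
    M.run A x ch T = M.run A' x ch T := by
  induction T with
  | zero => rfl
  | succ t ih =>
    rw [run, run, ← ih (fun q hq => h q (by omega))]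
    apply step_congr
    intro s hs
    exact h s (((M.inv_run A x ch t).length_le hs).trans (Nat.le_succ t))

open Classical in
/-- The string on the oracle tape (empty if there is none). -/
noncomputable def content (c : Config M) : Str :=
  if h : ∃ s, Holds (c.tape TapeName.oracle) s then h.choose else []

theorem content_eq (c : Config M) {s : Str} (hs : Holds (c.tape TapeName.oracle) s) :
    M.content c = s := by
  unfold content
  rw [dif_pos ⟨s, hs⟩]
  exact (Exists.choose_spec (⟨s, hs⟩ : ∃ s, Holds (c.tape TapeName.oracle) s)).unique hs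

theorem length_content (c : Config M) (t : ℕ) (h : M.Inv c t) : (M.content c).length ≤ t := by
  by_cases hs : ∃ s, Holds (c.tape TapeName.oracle) s
  · obtain ⟨s, hs⟩ := hs
    rw [M.content_eq c hs]; exact h.length_le hs
  · simp [content, hs]

/-- The decision tree of `T` steps of the machine along the choices `false`, followed by `k`. -/
noncomputable def runTree {β : Type} (k : Config M → DT β) : ℕ → Config M → DT β
  | 0, c => k c
  | T + 1, c => DT.node (M.content c)
      (fun b => runTree k T (M.step {_s | b = true} false c))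

theorem eval_runTree {β : Type} (k : Config M → DT β) (A : Set Str) (T : ℕ) :
    ∀ c, (M.runTree k T c).eval A = (k ((M.step A false)^[T] c)).eval A := by
  classical
  induction T with
  | zero => intro c; rfl
  | succ T ih =>
    intro c
    rw [runTree, DT.eval, ih, Function.iterate_succ_apply]
    congr 3
    apply step_congr
    intro s hs
    rw [M.content_eq c hs]
    simp

theorem ok_runTree {β : Type} (k : Config M → DT β) (L T' : ℕ) (hk : ∀ c, DT.Ok L T' (k c))
    (T : ℕ) : ∀ c t, M.Inv c t → t + T ≤ L → DT.Ok L (T' + T) (M.runTree k T c) := by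
  induction T with
  | zero => intro c t _ _; exact hk c
  | succ T ih =>
    intro c t h hL
    rw [runTree]
    exact DT.Ok.node _ _ _ ((M.length_content c t h).trans (by omega))
      (fun b => ih _ (t + 1) (M.inv_step _ _ c t h) (by omega))

theorem run_false (A : Set Str) (x : Str) (T : ℕ) :
    M.run A x (fun _ => false) T = (M.step A false)^[T] (M.init x) := by
  induction T with
  | zero => rfl
  | succ T ih => rw [run, ih, Function.iterate_succ_apply']

end OracleTM

instance (n : ℕ) : Finite (State n) := by
  let f : Fin 6 ⊕ Fin n → State n := fun a => match a with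
    | Sum.inl 0 => State.start
    | Sum.inl 1 => State.query
    | Sum.inl 2 => State.yes
    | Sum.inl 3 => State.no
    | Sum.inl 4 => State.accept
    | Sum.inl 5 => State.reject
    | Sum.inr i => State.work i
  apply Finite.of_surjective f
  intro q
  cases q with
  | start => exact ⟨Sum.inl 0, rfl⟩
  | query => exact ⟨Sum.inl 1, rfl⟩
  | yes => exact ⟨Sum.inl 2, rfl⟩
  | no => exact ⟨Sum.inl 3, rfl⟩
  | accept => exact ⟨Sum.inl 4, rfl⟩
  | reject => exact ⟨Sum.inl 5, rfl⟩
  | work i => exact ⟨Sum.inr i, rfl⟩

instance (k : ℕ) : Finite (TapeName k) := by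
  let f : Fin 3 ⊕ Fin k → TapeName k := fun a => match a with
    | Sum.inl 0 => TapeName.input
    | Sum.inl 1 => TapeName.oracle
    | Sum.inl 2 => TapeName.output
    | Sum.inr i => TapeName.work i
  apply Finite.of_surjective f
  intro q
  cases q with
  | input => exact ⟨Sum.inl 0, rfl⟩
  | oracle => exact ⟨Sum.inl 1, rfl⟩
  | output => exact ⟨Sum.inl 2, rfl⟩
  | work i => exact ⟨Sum.inr i, rfl⟩

instance : Countable OracleTM := by
  let f : (Σ n : ℕ, Σ k : ℕ, (Bool → State n → (TapeName k → Option Bool) →
    State n × (TapeName k → Option Bool × SignType))) → OracleTM := fun a => ⟨a.1, a.2.1, a.2.2⟩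
  have : Function.Surjective f := fun M => ⟨⟨M.numStates, M.numTapes, M.δ⟩, rfl⟩
  have hf : ∀ n k : ℕ, Countable (Bool → State n → (TapeName k → Option Bool) →
      State n × (TapeName k → Option Bool × SignType)) := by
    intro n k
    have h1 : Finite (TapeName k → Option Bool) := inferInstance
    have h2 : Finite (State n × (TapeName k → Option Bool × SignType)) := inferInstance
    have h3 : Finite ((TapeName k → Option Bool) →
      State n × (TapeName k → Option Bool × SignType)) := inferInstance
    infer_instance
  exact this.countable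

instance : Nonempty OracleTM := ⟨⟨0, 0, fun _ _ _ => (State.accept, fun _ => (none, 0))⟩⟩

theorem poly_le_pow (p : Polynomial ℕ) : ∃ c : ℕ, ∀ n, p.eval n ≤ (n + 2) ^ c := by
  induction p using Polynomial.induction_on' with
  | add p q hp hq =>
    obtain ⟨a, ha⟩ := hp
    obtain ⟨b, hb⟩ := hq
    refine ⟨a + b + 1, fun n => ?_⟩
    rw [Polynomial.eval_add]
    have h1 : (n + 2) ^ a ≤ (n + 2) ^ (a + b) := Nat.pow_le_pow_right (by omega) (by omega)
    have h2 : (n + 2) ^ b ≤ (n + 2) ^ (a + b) := Nat.pow_le_pow_right (by omega) (by omega)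
    have h3 := ha n
    have h4 := hb n
    rw [pow_succ]
    nlinarith
  | monomial k a =>
    refine ⟨a + k, fun n => ?_⟩
    rw [Polynomial.eval_monomial, pow_add]
    apply Nat.mul_le_mul
    · exact (Nat.lt_two_pow_self.le).trans (Nat.pow_le_pow_left (by omega) _)
    · exact Nat.pow_le_pow_left (by omega) _

end Pool.Agent.MP_e55146_lc
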